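import Mathlib
import Pool.Agent.W591.TL.Law
import Pool.Agent.W975.TLTail
import Pool.Agent.TH445.OI.A17
import Pool.Agent.Helper480.E25.F

/-! Joint law of the values of `Ω`: the main upper bound -/

set_option autoImplicit false

namespace Pool.Agent.K4H18.AC

open Finset
open ArithmeticFunction (cardFactors cardFactors_mul cardFactors_apply_prime_pow cardFactors_apply)
open Pool.Agent.W208.TL (PP sm lf Indep dens)
open Pool.Agent.TH445.OI (X Y qq X_add_Y X_eq)

lemma om_prod (e : ℕ → ℕ) (T : Finset ℕ) (hT : ∀ p ∈ T, p.Prime) :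
    cardFactors (∏ p ∈ T, p ^ (e p)) = ∑ p ∈ T, e p := by
  induction T using Finset.induction_on with
  | empty => simp
  | insert a s ha ih =>
    rw [prod_insert ha, sum_insert ha, cardFactors_mul, cardFactors_apply_prime_pow (hT a (mem_insert_self _ _)),
      ih (fun p hp => hT p (mem_insert_of_mem hp))]
    · exact pow_ne_zero _ (hT a (mem_insert_self _ _)).ne_zero
    · rw [prod_ne_zero_iff]
      exact fun p hp => pow_ne_zero _ (hT p (mem_insert_of_mem hp)).ne_zero

lemma mem_PP {w y l : ℕ} : l ∈ PP w y ↔ (w < l ∧ l ≤ y) ∧ l.Prime := by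
  unfold PP
  rw [mem_filter, mem_Ioc]

lemma om_sm (w y n : ℕ) : cardFactors (sm w y n) = ∑ l ∈ PP w y, n.factorization l := by
  unfold sm
  exact om_prod _ _ fun p hp => (mem_PP.1 hp).2

lemma om_split {w y n : ℕ} (hwy : w ≤ y) (hn : n ≠ 0) :
    X w n + cardFactors (sm w y n) + Y y n = cardFactors n := by
  rw [← X_add_Y y hn, om_sm, X_eq, X_eq]
  congr 1
  have h1 : (Icc 1 y).filter Nat.Prime = (Icc 1 w).filter Nat.Prime ∪ PP w y := by
    ext p
    rw [mem_union, mem_PP, mem_filter, mem_filter, mem_Icc, mem_Icc]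
    constructor
    · rintro ⟨⟨a, b⟩, c⟩
      rcases Nat.lt_or_ge w p with h | h
      · right; exact ⟨⟨h, b⟩, c⟩
      · left; exact ⟨⟨a, h⟩, c⟩
    · rintro (⟨⟨a, b⟩, c⟩ | ⟨⟨a, b⟩, c⟩)
      · exact ⟨⟨a, by omega⟩, c⟩
      · exact ⟨⟨c.one_lt.le, b⟩, c⟩
  rw [h1, sum_union]
  rw [disjoint_left]
  intro p hp hp'
  rw [mem_filter, mem_Icc] at hp
  rw [mem_PP] at hp'
  omega

lemma pow_om_le {y m : ℕ} (hm : m ≠ 0) (h : ∀ p, p.Prime → p ∣ m → y < p) : (y + 1) ^ cardFactors m ≤ m := by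
  rw [cardFactors_apply]
  have h1 := List.pow_card_le_prod m.primeFactorsList (y + 1) (fun p hp =>
    h p (Nat.prime_of_mem_primeFactorsList hp) (Nat.dvd_of_mem_primeFactorsList hp))
  rwa [Nat.prod_primeFactorsList hm] at h1

lemma Y_le {y n t : ℕ} (hn : n ≠ 0) (h : n < (y + 1) ^ (t + 1)) : Y y n ≤ t := by
  by_contra hcon
  push Not at hcon
  have h1 := pow_om_le (Pool.Agent.TH445.OI.rp_ne y n) (Pool.Agent.TH445.OI.rou_rp y n)
  have h2 : Pool.Agent.TH445.OI.rp y n ≤ n := by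
    have h3 := Pool.Agent.TH445.OI.sp_mul_rp y hn
    have h4 := Nat.pos_of_ne_zero (Pool.Agent.TH445.OI.sp_ne y n)
    calc Pool.Agent.TH445.OI.rp y n = 1 * Pool.Agent.TH445.OI.rp y n := (one_mul _).symm
      _ ≤ Pool.Agent.TH445.OI.sp y n * Pool.Agent.TH445.OI.rp y n := Nat.mul_le_mul_right _ h4
      _ = n := h3
  have h3 : (y + 1) ^ (t + 1) ≤ (y + 1) ^ cardFactors (Pool.Agent.TH445.OI.rp y n) :=
    Nat.pow_le_pow_right (by omega) hcon
  omega

/-- the sum of `1 / l` over the primes `l ∣ d` in `(w, y]` -/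
noncomputable def psi (w y d : ℕ) : ℝ := ∑ l ∈ PP w y, (if l ∣ d then (1 : ℝ) else 0) / l

lemma psi_nonneg (w y d : ℕ) : 0 ≤ psi w y d := sum_nonneg fun _ _ => by split_ifs <;> positivity

/-- `∏ (1 - 1 / l)` -/
noncomputable def VV (w y : ℕ) : ℝ := ∏ l ∈ PP w y, (1 - 1 / (l : ℝ))

lemma VV_nonneg (w y : ℕ) : 0 ≤ VV w y := by
  refine prod_nonneg fun l hl => ?_
  have h1 : (1 : ℝ) ≤ l := by exact_mod_cast (mem_PP.1 hl).2.one_lt.le
  rw [sub_nonneg, div_le_one (by linarith)]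
  exact h1

lemma VV_le (w y : ℕ) : VV w y ≤ Real.exp (-∑ l ∈ PP w y, 1 / (l : ℝ)) := by
  unfold VV
  rw [← sum_neg_distrib, Real.exp_sum]
  refine prod_le_prod (fun l hl => ?_) (fun l hl => ?_)
  · have h1 : (1 : ℝ) ≤ l := by exact_mod_cast (mem_PP.1 hl).2.one_lt.le
    rw [sub_nonneg, div_le_one (by linarith)]
    exact h1
  · have := Real.add_one_le_exp (-(1 / (l : ℝ)))
    linarith

lemma factor_bound {k l : ℕ} (hl : k + 1 < l) (hl2 : 2 ≤ l) (c : ℝ) (P : Prop) [Decidable P] (hc : 0 ≤ c)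
    (hPc : P → 1 ≤ c) :
    (1 - (if P then (1 : ℝ) else (k : ℝ)) / l) ≤ (1 - 1 / (l : ℝ)) ^ k * Real.exp (2 * k * (c / l)) := by
  have hl0 : (2 : ℝ) ≤ l := by exact_mod_cast hl2
  have hlp : (0 : ℝ) < l := by linarith
  have hx : 1 / (l : ℝ) ≤ 1 / 2 := one_div_le_one_div_of_le (by norm_num) hl0
  have hx0 : 0 < 1 / (l : ℝ) := by positivity
  have hexp : 1 ≤ Real.exp (2 * k * (c / l)) := Real.one_le_exp (by positivity)
  by_cases hP : P
  · rw [if_pos hP]
    have hc1 := hPc hP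
    have h1 : 1 ≤ (1 - 1 / (l : ℝ)) * Real.exp (2 * (1 / l)) := by
      have h2 := Real.add_one_le_exp (2 * (1 / (l : ℝ)))
      calc (1 : ℝ) ≤ (1 - 1 / (l : ℝ)) * (2 * (1 / l) + 1) := by nlinarith
        _ ≤ _ := by
          apply mul_le_mul_of_nonneg_left h2
          linarith
    have h3 : (1 : ℝ) ≤ ((1 - 1 / (l : ℝ)) * Real.exp (2 * (1 / l))) ^ k := one_le_pow₀ h1
    rw [mul_pow, ← Real.exp_nat_mul] at h3
    have h4 : Real.exp ((k : ℝ) * (2 * (1 / l))) ≤ Real.exp (2 * k * (c / l)) := by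
      apply Real.exp_le_exp.2
      have : (k : ℝ) * (2 * (1 / l)) * 1 ≤ (k : ℝ) * (2 * (1 / l)) * c := by
        apply mul_le_mul_of_nonneg_left hc1
        positivity
      calc (k : ℝ) * (2 * (1 / l)) = (k : ℝ) * (2 * (1 / l)) * 1 := by ring
        _ ≤ (k : ℝ) * (2 * (1 / l)) * c := this
        _ = _ := by ring
    have h5 : 0 ≤ (1 - 1 / (l : ℝ)) ^ k := by
      apply pow_nonneg
      linarith
    calc 1 - 1 / (l : ℝ) ≤ 1 := by linarith
      _ ≤ (1 - 1 / (l : ℝ)) ^ k * Real.exp ((k : ℝ) * (2 * (1 / l))) := h3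
      _ ≤ _ := mul_le_mul_of_nonneg_left h4 h5
  · rw [if_neg hP]
    have h1 := one_add_mul_le_pow (show (-2 : ℝ) ≤ -(1 / (l : ℝ)) by linarith) k
    have h2 : 0 ≤ (1 - 1 / (l : ℝ)) ^ k := by
      apply pow_nonneg
      linarith
    calc 1 - (k : ℝ) / l = 1 + k * -(1 / (l : ℝ)) := by ring
      _ ≤ (1 + -(1 / (l : ℝ))) ^ k := h1
      _ = (1 - 1 / (l : ℝ)) ^ k * 1 := by rw [mul_one]; congr 1
      _ ≤ _ := mul_le_mul_of_nonneg_left hexp h2

lemma dens_le {k : ℕ} {w y : ℕ} (hw : k + 1 ≤ w) (d : Fin k → ℕ) :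
    dens w y d ≤ Real.exp (2 * k * ∑ i, psi w y (d i)) * ∏ i, (VV w y / d i) := by
  unfold Pool.Agent.W208.TL.dens
  split_ifs with h
  · rw [prod_div_distrib, prod_const, card_univ, Fintype.card_fin, ← mul_div_assoc]
    apply div_le_div_of_nonneg_right _ (prod_nonneg fun _ _ => Nat.cast_nonneg _)
    have e : Real.exp (2 * k * ∑ i, psi w y (d i)) * VV w y ^ k =
        ∏ l ∈ PP w y, ((1 - 1 / (l : ℝ)) ^ k * Real.exp (2 * k * ((∑ i, if l ∣ d i then (1 : ℝ) else 0) / l))) := by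
      have e2 : 2 * (k : ℝ) * ∑ i, psi w y (d i) =
          ∑ l ∈ PP w y, 2 * (k : ℝ) * ((∑ i, if l ∣ d i then (1 : ℝ) else 0) / l) := by
        rw [← mul_sum]
        congr 1
        unfold psi
        rw [sum_comm]
        apply sum_congr rfl
        intro l _
        rw [sum_div]
      rw [prod_mul_distrib, ← Real.exp_sum, ← e2, mul_comm, VV, prod_pow]
    rw [e]
    refine prod_le_prod (fun l hl => ?_) (fun l hl => ?_)
    · have h1 := mem_PP.1 hl
      have h2 : (k : ℝ) + 1 ≤ l := by exact_mod_cast (by omega : k + 1 ≤ l)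
      have h3 : (0 : ℝ) ≤ k := Nat.cast_nonneg k
      rw [sub_nonneg]
      split_ifs
      · rw [div_le_one (by linarith)]; linarith
      · rw [div_le_one (by linarith)]; linarith
    · have h1 := mem_PP.1 hl
      refine factor_bound (by omega) h1.2.two_le _ _ (sum_nonneg fun _ _ => by split_ifs <;> norm_num) ?_
      rintro ⟨i, hi⟩
      have := single_le_sum (f := fun i => if l ∣ d i then (1 : ℝ) else 0) (s := univ)
        (fun j _ => by split_ifs <;> norm_num) (mem_univ i)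
      simp only [if_pos hi] at this
      exact this
  · exact mul_nonneg (Real.exp_nonneg _) (prod_nonneg fun i _ => div_nonneg (VV_nonneg _ _) (Nat.cast_nonneg _))

lemma smooth_sum {w y Z m : ℕ} (hwy : w ≤ y) :
    ∑ d ∈ (Icc 1 Z).filter (fun d => sm w y d = d ∧ cardFactors d = m), 1 / (d : ℝ) ≤ qq w Z m := by
  unfold qq
  rw [sum_filter]
  apply sum_le_sum
  intro d hd
  rw [mem_Icc] at hd
  by_cases h : sm w y d = d ∧ cardFactors d = m
  · rw [if_pos h]
    have h1 := om_split hwy (by omega : d ≠ 0)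
    rw [h.1] at h1
    have h2 : Y w d = m := by
      have h3 := X_add_Y w (by omega : d ≠ 0)
      omega
    rw [if_pos h2]
  · rw [if_neg h]
    split_ifs <;> positivity

/-- the vector of the shifts is admissible for `w` -/
def Adm {k : ℕ} (w : ℕ) (h : Fin k → ℕ) : Prop :=
  Function.Injective h ∧ ∀ i, h i ≤ w

lemma Adm.indep {k w : ℕ} {h : Fin k → ℕ} (H : Adm w h) : Indep w (fun _ : Fin k => 1) (fun i => (h i : ℤ)) := by
  refine ⟨fun _ => le_rfl, fun l hl hwl => ⟨fun i hd => ?_, fun i j hij hd => ?_⟩⟩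
  · have := Nat.le_of_dvd one_pos hd
    have := hl.two_le
    omega
  · push_cast at hd
    rw [one_mul, one_mul] at hd
    have h1 : (h j : ℤ) - h i ≠ 0 := by
      intro h0
      apply hij
      apply H.1
      omega
    have h2 := Int.le_of_dvd (abs_pos.2 h1) ((dvd_abs _ _).2 hd)
    have h3 := H.2 i
    have h4 := H.2 j
    have h5 : |(h j : ℤ) - h i| ≤ w := by
      rw [abs_le]
      constructor <;> omega
    omega

/-- the good `n` with prescribed values of `Ω` at the smooth parts -/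
noncomputable def cell {k : ℕ} (N w y Z : ℕ) (B : ℝ) (h : Fin k → ℕ) (m : Fin k → ℕ) : Finset ℕ :=
  open Classical in (Icc 1 N).filter (fun n => ∀ i, cardFactors (sm w y (n + h i)) = m i ∧ sm w y (n + h i) ≤ Z ∧
    psi w y (n + h i) ≤ B)

lemma psi_sm {w y n : ℕ} (hn : n ≠ 0) : psi w y (sm w y n) ≤ psi w y n := by
  unfold psi
  apply sum_le_sum
  intro l hl
  apply div_le_div_of_nonneg_right _ (Nat.cast_nonneg _)
  by_cases h : l ∣ sm w y n
  · have h1 : l ∣ n := by
      unfold sm at h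
      obtain ⟨q, hq, hd⟩ := (Prime.dvd_finsetProd_iff (mem_PP.1 hl).2.prime _).1 h
      have h2 := (mem_PP.1 hl).2.dvd_of_dvd_pow hd
      have h3 := (Nat.prime_dvd_prime_iff_eq (mem_PP.1 hl).2 (mem_PP.1 hq).2).1 h2
      subst h3
      by_contra hcon
      rw [Nat.factorization_eq_zero_of_not_dvd hcon, pow_zero] at hd
      have := Nat.le_of_dvd one_pos hd
      have := (mem_PP.1 hl).2.two_le
      omega
    rw [if_pos h, if_pos h1]
  · rw [if_neg h]
    split_ifs <;> norm_num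

lemma sm_sm {w y n : ℕ} : sm w y (sm w y n) = sm w y n := by
  have h0 : ∀ l ∈ PP w y, (sm w y n).factorization l = n.factorization l := by
    intro l hl
    unfold sm
    rw [Nat.factorization_prod (fun p hp => pow_ne_zero _ (mem_PP.1 hp).2.ne_zero), Finsupp.finsetSum_apply,
      sum_eq_single l]
    · rw [Nat.factorization_pow, Finsupp.smul_apply, (mem_PP.1 hl).2.factorization_self, smul_eq_mul, mul_one]
    · intro p hp hpl
      rw [Nat.factorization_pow, Finsupp.smul_apply, (mem_PP.1 hp).2.factorization, Finsupp.single_eq_of_ne (Ne.symm hpl),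
        smul_zero]
    · intro hcon
      exact absurd hl hcon
  unfold sm
  apply prod_congr rfl
  intro l hl
  have := h0 l hl
  unfold sm at this
  rw [this]

end Pool.Agent.K4H18.AC
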