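import Pool.Agent.K4H18.AC.A1

/-! Joint law of the values of `Ω`: the main upper bound, continued -/

set_option autoImplicit false

namespace Pool.Agent.K4H18.AC

open Finset
open ArithmeticFunction (cardFactors cardFactors_mul cardFactors_apply_prime_pow cardFactors_apply)
open Pool.Agent.W208.TL (PP sm lf Indep)
open Pool.Agent.TH445.OI (X Y qq X_add_Y X_eq)

lemma lf_eq (a n : ℕ) : lf 1 (a : ℤ) n = n + a := by
  unfold lf
  push_cast
  rw [one_mul]
  omega

/-- the smooth numbers up to `Z` with `m` prime factors -/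
noncomputable def DD (w y Z m : ℕ) : Finset ℕ := (Icc 1 Z).filter (fun d => sm w y d = d ∧ cardFactors d = m)

theorem cell_le (k : ℕ) (hk : 1 ≤ k) : ∃ K y0 : ℕ, 1 ≤ K ∧ ∀ (w : ℕ) (h : Fin k → ℕ), k + 1 ≤ w → Adm w h →
    ∀ y N Z : ℕ, y0 ≤ y → w ≤ y → ∀ (B Q : ℝ), 0 ≤ Q → (∀ m, qq w Z m ≤ Q) → ∀ m : Fin k → ℕ,
    ((cell N w y Z B h m).card : ℝ) ≤
      2 * N * (Real.exp (2 * k * (k * B)) * (VV w y * Q) ^ k) + (Z : ℝ) ^ k * ((y : ℝ) ^ K + k + 3) := by
  classical
  obtain ⟨K, y0, hK, hlaw⟩ := Pool.Agent.W591.TL.law k hk 1 one_pos le_rfl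
  refine ⟨K, y0, hK, ?_⟩
  intro w h hkw hadm y N Z hy hwy B Q hQ hqq m
  set D : Finset (Fin k → ℕ) := (Fintype.piFinset (fun i => DD w y Z (m i))).filter
    (fun d => ∀ i, psi w y (d i) ≤ B) with hD
  set T : (Fin k → ℕ) → Finset ℕ := fun d => (Ioc 0 N).filter (fun n => n ≡ 0 [MOD 1] ∧
    ∀ i, sm w y (lf 1 ((h i : ℕ) : ℤ) n) = d i) with hT
  have hsub : cell N w y Z B h m ⊆ D.biUnion T := by
    intro n hn
    unfold cell at hn
    rw [mem_filter, mem_Icc] at hn
    obtain ⟨hn1, hn2⟩ := hn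
    rw [mem_biUnion]
    refine ⟨fun i => sm w y (n + h i), ?_, ?_⟩
    · rw [hD, mem_filter, Fintype.mem_piFinset]
      refine ⟨fun i => ?_, fun i => ?_⟩
      · unfold DD
        rw [mem_filter, mem_Icc]
        exact ⟨⟨Pool.Agent.W975.TL.sm_pos _ _ _, (hn2 i).2.1⟩, sm_sm, (hn2 i).1⟩
      · exact (psi_sm (by omega)).trans (hn2 i).2.2
    · rw [hT]
      simp only [mem_filter, mem_Ioc]
      refine ⟨⟨by omega, hn1.2⟩, ?_, fun i => ?_⟩
      · exact Nat.modEq_one
      · rw [lf_eq]
  have h1 : ((cell N w y Z B h m).card : ℝ) ≤ ∑ d ∈ D, ((T d).card : ℝ) := by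
    have := (card_le_card hsub).trans card_biUnion_le
    exact_mod_cast this
  have hT1 : ∀ d, ((T d).card : ℝ) ≤ 2 * N * Pool.Agent.W208.TL.dens w y d + ((y : ℝ) ^ K + k + 3) := by
    intro d
    have h2 := hlaw (fun _ : Fin k => 1) (fun i => ((h i : ℕ) : ℤ)) w hadm.indep 1 0 le_rfl (by
      intro l hl hl1
      rw [Nat.dvd_one] at hl1
      exact absurd hl1 hl.ne_one) y N hy d
    have h3 := (abs_le.1 h2).2
    push_cast at h3
    rw [div_one] at h3
    have h5 := sub_le_iff_le_add.1 h3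
    have e : (T d).card = ((Ioc 0 N).filter (fun n => n ≡ 0 [MOD 1] ∧
      ∀ i, sm w y (lf 1 ((h i : ℕ) : ℤ) n) = d i)).card := rfl
    have e2 : ((T d).card : ℝ) ≤ 1 * (N * Pool.Agent.W208.TL.dens w y d) + (y : ℝ) ^ K + k + 3 +
        N * Pool.Agent.W208.TL.dens w y d := by
      rw [e]
      convert h5 using 2
    linarith
  have hcard : (D.card : ℝ) ≤ (Z : ℝ) ^ k := by
    have h4 : D.card ≤ (Fintype.piFinset (fun _ : Fin k => Icc 1 Z)).card := by
      apply card_le_card
      intro d hd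
      rw [hD, mem_filter, Fintype.mem_piFinset] at hd
      rw [Fintype.mem_piFinset]
      intro i
      have := hd.1 i
      unfold DD at this
      exact (mem_filter.1 this).1
    rw [Fintype.card_piFinset, prod_const, Nat.card_Icc, card_univ, Fintype.card_fin] at h4
    have h5 : D.card ≤ Z ^ k := by simpa using h4
    exact_mod_cast h5
  have hdens : ∑ d ∈ D, Pool.Agent.W208.TL.dens w y d ≤ Real.exp (2 * k * (k * B)) * (VV w y * Q) ^ k := by
    calc ∑ d ∈ D, Pool.Agent.W208.TL.dens w y d ≤ ∑ d ∈ D, Real.exp (2 * k * (k * B)) * ∏ i, (VV w y / d i) := by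
          apply sum_le_sum
          intro d hd
          refine (dens_le hkw d).trans ?_
          apply mul_le_mul_of_nonneg_right _
            (prod_nonneg fun i _ => div_nonneg (VV_nonneg _ _) (Nat.cast_nonneg _))
          apply Real.exp_le_exp.2
          apply mul_le_mul_of_nonneg_left _ (by positivity)
          rw [hD, mem_filter] at hd
          calc ∑ i, psi w y (d i) ≤ ∑ _i : Fin k, B := sum_le_sum fun i _ => hd.2 i
            _ = k * B := by rw [sum_const, card_univ, Fintype.card_fin, nsmul_eq_mul]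
      _ ≤ ∑ d ∈ Fintype.piFinset (fun i => DD w y Z (m i)), Real.exp (2 * k * (k * B)) * ∏ i, (VV w y / d i) := by
          apply sum_le_sum_of_subset_of_nonneg (filter_subset _ _)
          intro d _ _
          exact mul_nonneg (Real.exp_nonneg _)
            (prod_nonneg fun i _ => div_nonneg (VV_nonneg _ _) (Nat.cast_nonneg _))
      _ = Real.exp (2 * k * (k * B)) * ∏ i, ∑ d ∈ DD w y Z (m i), (VV w y / d) := by
          rw [← mul_sum, prod_univ_sum]
      _ ≤ Real.exp (2 * k * (k * B)) * ∏ _i : Fin k, (VV w y * Q) := by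
          apply mul_le_mul_of_nonneg_left _ (Real.exp_nonneg _)
          apply prod_le_prod
          · intro i _
            exact sum_nonneg fun d _ => div_nonneg (VV_nonneg _ _) (Nat.cast_nonneg _)
          · intro i _
            have h6 := (smooth_sum hwy (Z := Z) (m := m i)).trans (hqq (m i))
            calc ∑ d ∈ DD w y Z (m i), (VV w y / d) = VV w y * ∑ d ∈ DD w y Z (m i), 1 / (d : ℝ) := by
                  rw [mul_sum]
                  apply sum_congr rfl
                  intro d _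
                  ring
              _ ≤ VV w y * Q := mul_le_mul_of_nonneg_left h6 (VV_nonneg _ _)
      _ = _ := by rw [prod_const, card_univ, Fintype.card_fin]
  calc ((cell N w y Z B h m).card : ℝ) ≤ ∑ d ∈ D, ((T d).card : ℝ) := h1
    _ ≤ ∑ d ∈ D, (2 * N * Pool.Agent.W208.TL.dens w y d + ((y : ℝ) ^ K + k + 3)) := sum_le_sum fun d _ => hT1 d
    _ = 2 * N * ∑ d ∈ D, Pool.Agent.W208.TL.dens w y d + D.card * ((y : ℝ) ^ K + k + 3) := by
        rw [sum_add_distrib, ← mul_sum, sum_const, nsmul_eq_mul]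
    _ ≤ _ := by gcongr

end Pool.Agent.K4H18.AC
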