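import Pool.Agent.K4H18.AC.A2

/-! Joint law of the values of `Ω`: the exceptional sets -/

set_option autoImplicit false

namespace Pool.Agent.K4H18.AC

open Finset
open ArithmeticFunction (cardFactors cardFactors_mul cardFactors_apply_prime_pow cardFactors_apply)
open Pool.Agent.W208.TL (PP sm lf Indep)
open Pool.Agent.TH445.OI (X Y qq X_add_Y X_eq P1 P2 H VW PW)

lemma card_shift (N a : ℕ) (P : ℕ → Prop) [DecidablePred P] :
    ((Icc 1 N).filter (fun n => P (n + a))).card ≤ ((Icc 1 (N + a)).filter P).card := by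
  apply card_le_card_of_injOn (fun n => n + a)
  · intro n hn
    rw [mem_coe, mem_filter, mem_Icc] at hn
    rw [mem_coe, mem_filter, mem_Icc]
    refine ⟨?_, hn.2⟩
    show 1 ≤ n + a ∧ n + a ≤ N + a
    omega
  · intro n _ m _ he
    simp only at he
    omega

lemma markov (N : ℕ) (f : ℕ → ℝ) (hf : ∀ n, 0 ≤ f n) (S T : ℝ) (hT : 0 < T) (h : ∑ n ∈ Icc 1 N, f n ≤ S) :
    (((Icc 1 N).filter (fun n => T < f n)).card : ℝ) ≤ S / T := by
  rw [le_div_iff₀ hT]
  calc (((Icc 1 N).filter (fun n => T < f n)).card : ℝ) * T = ∑ n ∈ (Icc 1 N).filter (fun n => T < f n), T := by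
        rw [sum_const, nsmul_eq_mul]
    _ ≤ ∑ n ∈ (Icc 1 N).filter (fun n => T < f n), f n := sum_le_sum fun n hn => (mem_filter.1 hn).2.le
    _ ≤ ∑ n ∈ Icc 1 N, f n := sum_le_sum_of_subset_of_nonneg (filter_subset _ _) fun n _ _ => hf n
    _ ≤ S := h

lemma PP_eq (w y : ℕ) : PP w y = PW w y := by
  unfold PP PW
  congr 1
  ext l
  rw [mem_Ioc, mem_Icc]
  omega

lemma psi_sum {w y : ℕ} (hw : 1 ≤ w) (N : ℕ) : ∑ n ∈ Icc 1 N, psi w y n ≤ N := by
  unfold psi
  rw [sum_comm]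
  have h1 : ∀ l ∈ PP w y, ∑ n ∈ Icc 1 N, (if l ∣ n then (1 : ℝ) else 0) / l ≤ N * (1 / (l : ℝ) ^ 2) := by
    intro l hl
    have hl0 : (0 : ℝ) < l := by exact_mod_cast (mem_PP.1 hl).2.pos
    rw [← sum_div, sum_boole]
    have h2 : ((Icc 1 N).filter (fun n => l ∣ n)).card = N / l := Pool.Agent.Helper480.E25.card_mult N l
    rw [h2]
    have h3 : ((N / l : ℕ) : ℝ) ≤ N / l := Nat.cast_div_le
    calc ((N / l : ℕ) : ℝ) / l ≤ N / l / l := by gcongr
      _ = _ := by field_simp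
  calc ∑ l ∈ PP w y, ∑ n ∈ Icc 1 N, (if l ∣ n then (1 : ℝ) else 0) / l ≤ ∑ l ∈ PP w y, N * (1 / (l : ℝ) ^ 2) :=
        sum_le_sum h1
    _ = N * ∑ l ∈ PW w y, (1 / (l : ℝ) ^ 2) := by rw [mul_sum, PP_eq]
    _ ≤ N * (1 / w) := by
        apply mul_le_mul_of_nonneg_left _ (Nat.cast_nonneg _)
        exact Pool.Agent.TH445.OI.inv_sq_tail w y hw
    _ ≤ N * 1 := by
        apply mul_le_mul_of_nonneg_left _ (Nat.cast_nonneg _)
        have : (1 : ℝ) ≤ w := by exact_mod_cast hw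
        rw [div_le_one (by linarith)]
        exact this
    _ = N := mul_one _

lemma sm_mono (w y n : ℕ) : sm w y n ≤ sm 0 y n := by
  unfold sm
  apply prod_le_prod_of_subset_of_one_le'
  · intro l hl
    rw [mem_PP] at hl ⊢
    exact ⟨⟨by omega, hl.1.2⟩, hl.2⟩
  · intro l hl _
    exact Nat.one_le_pow _ _ (mem_PP.1 hl).2.pos

/-- the `n` which are not good for the form `n + a` -/
noncomputable def bad (N w y Z R : ℕ) (B : ℝ) (a : ℕ) : Finset ℕ :=
  open Classical in (Icc 1 N).filter (fun n => ¬ (sm w y (n + a) ≤ Z ∧ psi w y (n + a) ≤ B ∧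
    X w (n + a) + Y y (n + a) ≤ R))

theorem bad_le : ∃ CT : ℝ, 0 < CT ∧ ∀ (N w y K1 R' A : ℕ) (B : ℝ) (a : ℕ), 1 ≤ w → 2 ≤ y → 1 ≤ K1 → 1 ≤ R' → 0 < B →
    a ≤ N → N < (y + 1) ^ A → 1 ≤ N →
    ((bad N w y (y ^ K1) (R' + A) B a).card : ℝ) ≤ 2 * CT / K1 * N + 4 * P1 w / R' * N + 2 / B * N := by
  classical
  obtain ⟨C, hC, ht⟩ := Pool.Agent.W975.TL.tail
  refine ⟨C, hC, ?_⟩
  intro N w y K1 R' A B a hw hy hK1 hR' hB ha hNA hN
  have hN0 : (0 : ℝ) < N := by exact_mod_cast hN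
  have haN : ((N + a : ℕ) : ℝ) ≤ 2 * N := by exact_mod_cast (by omega : N + a ≤ 2 * N)
  set S1 := (Icc 1 N).filter (fun n => y ^ K1 < sm w y (n + a)) with hS1
  set S2 := (Icc 1 N).filter (fun n => (R' : ℝ) < (X w (n + a) : ℝ)) with hS2
  set S3 := (Icc 1 N).filter (fun n => B < psi w y (n + a)) with hS3
  have hsub : bad N w y (y ^ K1) (R' + A) B a ⊆ S1 ∪ S2 ∪ S3 := by
    intro n hn
    unfold bad at hn
    rw [mem_filter, mem_Icc] at hn
    obtain ⟨hn1, hn2⟩ := hn
    by_contra hcon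
    rw [mem_union, mem_union, not_or, not_or, hS1, hS2, hS3, mem_filter, mem_filter, mem_filter, mem_Icc] at hcon
    obtain ⟨⟨c1, c2⟩, c3⟩ := hcon
    apply hn2
    refine ⟨?_, ?_, ?_⟩
    · by_contra h; exact c1 ⟨hn1, by omega⟩
    · by_contra h; exact c3 ⟨hn1, by linarith⟩
    · have h4 : X w (n + a) ≤ R' := by
        by_contra h
        refine c2 ⟨hn1, ?_⟩
        push Not at h
        exact_mod_cast h
      have h5 : Y y (n + a) ≤ A := by
        apply Y_le (by omega)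
        have h6 : n + a ≤ 2 * N := by omega
        have h7 : 2 * N < 2 * (y + 1) ^ A := by omega
        have h8 : 2 * (y + 1) ^ A ≤ (y + 1) ^ (A + 1) := by
          rw [pow_succ, mul_comm]
          apply Nat.mul_le_mul_left
          omega
        omega
      omega
  have h1 : (S1.card : ℝ) ≤ 2 * C / K1 * N := by
    have h2 : S1.card ≤ ((Icc 1 (N + a)).filter (fun n => y ^ K1 < sm w y n)).card :=
      card_shift N a (fun n => y ^ K1 < sm w y n)
    have h3 : ((Icc 1 (N + a)).filter (fun n => y ^ K1 < sm w y n)).card ≤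
        ((Ioc 0 (N + a)).filter (fun n => y ^ K1 < sm 0 y n)).card := by
      apply card_le_card
      intro n hn
      rw [mem_filter, mem_Icc] at hn
      rw [mem_filter, mem_Ioc]
      exact ⟨by omega, hn.2.trans_le (sm_mono w y n)⟩
    have hZ : 2 ≤ y ^ K1 := hy.trans (Nat.le_self_pow (by omega) y)
    have h4 := ht (N + a) y (y ^ K1) hy hZ
    have hly : 0 < Real.log y := Real.log_pos (by exact_mod_cast (by omega : 1 < y))
    have hK : (0 : ℝ) < K1 := by exact_mod_cast hK1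
    have h5 : C * Real.log y / Real.log ((y ^ K1 : ℕ) : ℝ) = C / K1 := by
      push_cast
      rw [Real.log_pow]
      field_simp
    rw [h5] at h4
    calc (S1.card : ℝ) ≤ (((Ioc 0 (N + a)).filter (fun n => y ^ K1 < sm 0 y n)).card : ℝ) := by
          exact_mod_cast h2.trans h3
      _ ≤ C / K1 * ((N + a : ℕ) : ℝ) := h4
      _ ≤ C / K1 * (2 * N) := by gcongr
      _ = _ := by ring
  have h2 : (S2.card : ℝ) ≤ 4 * P1 w / R' * N := by
    have hR : (0 : ℝ) < R' := by exact_mod_cast hR'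
    have h3 : S2.card ≤ ((Icc 1 (N + a)).filter (fun n => (R' : ℝ) < (X w n : ℝ))).card :=
      card_shift N a (fun n => (R' : ℝ) < (X w n : ℝ))
    have h4 := markov (N + a) (fun n => (X w n : ℝ)) (fun n => Nat.cast_nonneg _) _ R' hR
      (Pool.Agent.TH445.OI.X_sum w (N + a))
    have hP := Pool.Agent.TH445.OI.P1_nonneg w
    calc (S2.card : ℝ) ≤ (((Icc 1 (N + a)).filter (fun n => (R' : ℝ) < (X w n : ℝ))).card : ℝ) := by exact_mod_cast h3
      _ ≤ 2 * P1 w * ((N + a : ℕ) : ℝ) / R' := h4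
      _ ≤ 2 * P1 w * (2 * N) / R' := by gcongr
      _ = _ := by ring
  have h3 : (S3.card : ℝ) ≤ 2 / B * N := by
    have h3 : S3.card ≤ ((Icc 1 (N + a)).filter (fun n => B < psi w y n)).card :=
      card_shift N a (fun n => B < psi w y n)
    have h4 := markov (N + a) (fun n => psi w y n) (fun n => psi_nonneg _ _ _) _ B hB (psi_sum hw (N + a))
    calc (S3.card : ℝ) ≤ (((Icc 1 (N + a)).filter (fun n => B < psi w y n)).card : ℝ) := by exact_mod_cast h3
      _ ≤ ((N + a : ℕ) : ℝ) / B := h4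
      _ ≤ (2 * N) / B := by gcongr
      _ = _ := by ring
  have h4 : (bad N w y (y ^ K1) (R' + A) B a).card ≤ S1.card + S2.card + S3.card := by
    refine (card_le_card hsub).trans ?_
    refine (card_union_le _ _).trans ?_
    have := card_union_le S1 S2
    omega
  have h5 : ((bad N w y (y ^ K1) (R' + A) B a).card : ℝ) ≤ S1.card + S2.card + S3.card := by exact_mod_cast h4
  linarith

end Pool.Agent.K4H18.AC
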