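import Pool.Agent.K4H18.AC.A3
import Pool.Agent.Helper256.KM.Mertens

/-! Joint law of the values of `Ω`: the numbers -/

set_option autoImplicit false

namespace Pool.Agent.K4H18.AC

open Finset Filter Topology
open ArithmeticFunction (cardFactors cardFactors_mul cardFactors_apply_prime_pow cardFactors_apply)
open Pool.Agent.W208.TL (PP sm lf Indep)
open Pool.Agent.TH445.OI (X Y qq X_add_Y X_eq P1 P2 H VW PW)

lemma VW_eq' (w M : ℕ) (h : w ≤ M) : VW w M = P1 M - P1 w := by
  unfold VW P1 PW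
  have h1 : (Icc 1 M).filter Nat.Prime = (Icc 1 w).filter Nat.Prime ∪ (Icc (w + 1) M).filter Nat.Prime := by
    rw [← filter_union]
    congr 1
    ext k; simp only [mem_union, mem_Icc]; omega
  rw [h1, sum_union]
  · ring
  · rw [disjoint_left]
    intro k hk1 hk2
    rw [mem_filter, mem_Icc] at hk1 hk2
    omega

lemma sum_PP {w y : ℕ} (h : w ≤ y) : ∑ l ∈ PP w y, 1 / (l : ℝ) = P1 y - P1 w := by
  rw [PP_eq]
  exact VW_eq' w y h

/-- the local bound for large `y` -/
theorem local_bound (w K1 : ℕ) (hw : 2 ≤ w) (hK1 : 1 ≤ K1) : ∃ (C : ℝ) (y1 : ℕ), 0 < C ∧ w ≤ y1 ∧ 3 ≤ y1 ∧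
    ∀ y : ℕ, y1 ≤ y → ∃ Q : ℝ, 0 ≤ Q ∧ (∀ m, qq w (y ^ K1) m ≤ Q) ∧ VV w y * Q ≤ C / √(Real.log (Real.log y)) := by
  obtain ⟨c1, hc1⟩ := Pool.Agent.Helper256.KM.mertens_inv
  obtain ⟨c2, hc2⟩ := Pool.Agent.Helper256.KM.mertens_log
  have hc10 : 0 ≤ c1 := (abs_nonneg _).trans (hc1 3 le_rfl)
  have hc20 : 0 ≤ c2 := (abs_nonneg _).trans (hc2 1 le_rfl)
  have hPw := Pool.Agent.TH445.OI.P1_nonneg w
  have hK0 : (1 : ℝ) ≤ K1 := by exact_mod_cast hK1
  have ev : ∀ᶠ y : ℕ in atTop, (2 * (c1 + P1 w) + 8 ≤ Real.log (Real.log y)) ∧ (1 ≤ Real.log y) ∧ (c1 + c2 ≤ Real.log y) := by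
    have t1 : Tendsto (fun y : ℕ => Real.log (Real.log y)) atTop atTop :=
      Real.tendsto_log_atTop.comp (Real.tendsto_log_atTop.comp tendsto_natCast_atTop_atTop)
    have t2 : Tendsto (fun y : ℕ => Real.log y) atTop atTop :=
      Real.tendsto_log_atTop.comp tendsto_natCast_atTop_atTop
    exact (t1.eventually_ge_atTop _).and ((t2.eventually_ge_atTop _).and (t2.eventually_ge_atTop _))
  obtain ⟨y2, hy2⟩ := eventually_atTop.1 ev
  refine ⟨Real.exp (c1 + P1 w) * (10 * K1) * 2, max y2 (max w 3), by positivity,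
    (le_max_left w 3).trans (le_max_right _ _), (le_max_right w 3).trans (le_max_right _ _), ?_⟩
  intro y hy
  obtain ⟨e1, e2, e3⟩ := hy2 y ((le_max_left _ _).trans hy)
  have hwy : w ≤ y := (le_max_left w 3).trans ((le_max_right _ _).trans hy)
  have hy3 : 3 ≤ y := (le_max_right w 3).trans ((le_max_right _ _).trans hy)
  set Z := y ^ K1 with hZ
  have hyZ : y ≤ Z := Nat.le_self_pow (by omega) y
  have hlZ : Real.log Z = K1 * Real.log y := by rw [hZ]; push_cast; rw [Real.log_pow]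
  have hly0 : 0 < Real.log y := by linarith
  have hlyZ : Real.log y ≤ Real.log Z := by rw [hlZ]; nlinarith
  have hllZ : Real.log (Real.log y) ≤ Real.log (Real.log Z) := Real.log_le_log hly0 hlyZ
  have m1 := abs_le.1 (hc1 Z (hy3.trans hyZ))
  have m2 := abs_le.1 (hc2 Z (by omega))
  have m3 := abs_le.1 (hc1 y hy3)
  have hP1Z : P1 Z ≤ Real.log (Real.log Z) + c1 := by have := m1.2; unfold P1; linarith
  have hP1Z' : Real.log (Real.log Z) - c1 ≤ P1 Z := by have := m1.1; unfold P1; linarith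
  have hP2Z : P2 Z ≤ Real.log Z + c2 := by have := m2.2; unfold P2; linarith
  have hP1y : Real.log (Real.log y) - c1 ≤ P1 y := by have := m3.1; unfold P1; linarith
  have hHge : Real.log Z ≤ H Z := by
    refine le_trans ?_ (Pool.Agent.TH445.OI.H_ge Z)
    apply Real.log_le_log (by exact_mod_cast (by omega : 0 < Z))
    linarith
  have hHle : H Z ≤ 2 * (K1 * Real.log y) := by
    have := Pool.Agent.TH445.OI.H_le (M := Z) (by omega)
    rw [hlZ] at this
    nlinarith
  have hVW : VW w Z = P1 Z - P1 w := VW_eq' w Z (hwy.trans hyZ)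
  set v := Real.log (Real.log y) with hv
  have hV1 : v / 2 ≤ VW w Z := by rw [hVW]; linarith
  have hV4 : 4 ≤ VW w Z := by linarith
  have hll : Real.log (Real.log Z) ≤ Real.log Z := by
    have : 0 < Real.log Z := by linarith
    have := Real.log_le_sub_one_of_pos this
    linarith
  have hcond : P1 Z + P2 Z ≤ 4 * H Z := by linarith
  have hconc := Pool.Agent.TH445.OI.conc w Z (by omega) hw (hwy.trans hyZ) hV4 hcond
  have hs : 0 < √(VW w Z) := Real.sqrt_pos.2 (by linarith)
  have hH0 := Pool.Agent.TH445.OI.H_nonneg Z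
  refine ⟨5 * H Z / √(VW w Z), by positivity, fun m => ?_, ?_⟩
  · rw [le_div_iff₀ hs]
    have := hconc m
    linarith
  · have hv0 : 0 < v := by linarith
    have hsv : 0 < √v := Real.sqrt_pos.2 hv0
    have h1 : √v / 2 ≤ √(VW w Z) := by
      apply Real.le_sqrt_of_sq_le
      rw [div_pow, Real.sq_sqrt hv0.le]
      linarith
    have h2 : VV w y ≤ Real.exp (c1 + P1 w) / Real.log y := by
      refine (VV_le w y).trans ?_
      rw [sum_PP hwy]
      have : Real.exp (c1 + P1 w) / Real.log y = Real.exp (c1 + P1 w - v) := by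
        rw [Real.exp_sub, hv, Real.exp_log hly0]
      rw [this]
      apply Real.exp_le_exp.2
      linarith
    have h3 : 5 * H Z / √(VW w Z) ≤ 5 * (2 * (K1 * Real.log y)) / (√v / 2) := by gcongr
    calc VV w y * (5 * H Z / √(VW w Z)) ≤ Real.exp (c1 + P1 w) / Real.log y * (5 * (2 * (K1 * Real.log y)) / (√v / 2)) := by
          apply mul_le_mul h2 h3 (by positivity) (by positivity)
      _ = _ := by field_simp; ring

end Pool.Agent.K4H18.AC
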