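import Pool.Agent.K4H18.AC.A4

/-! Joint law of the values of `Ω`: the parameters -/

set_option autoImplicit false

namespace Pool.Agent.K4H18.AC

open Finset Filter Topology
open ArithmeticFunction (cardFactors cardFactors_mul cardFactors_apply_prime_pow cardFactors_apply)
open Pool.Agent.W208.TL (PP sm lf Indep)
open Pool.Agent.TH445.OI (X Y qq X_add_Y X_eq P1 P2 H VW PW)

/-- the integer part of `N ^ (1 / A)` -/
noncomputable def rt (A N : ℕ) : ℕ := ⌊(N : ℝ) ^ (1 / (A : ℝ))⌋₊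

lemma rt_pow {A : ℕ} (hA : 1 ≤ A) (N : ℕ) : rt A N ^ A ≤ N := by
  have hA0 : (A : ℝ) ≠ 0 := by exact_mod_cast (by omega : A ≠ 0)
  have h1 : (rt A N : ℝ) ≤ (N : ℝ) ^ (1 / (A : ℝ)) := Nat.floor_le (by positivity)
  have h2 : ((rt A N : ℝ)) ^ A ≤ ((N : ℝ) ^ (1 / (A : ℝ))) ^ A := by gcongr
  rw [← Real.rpow_natCast ((N : ℝ) ^ (1 / (A : ℝ))), ← Real.rpow_mul (Nat.cast_nonneg _), one_div,
    inv_mul_cancel₀ hA0, Real.rpow_one] at h2
  exact_mod_cast h2

lemma lt_rt {A : ℕ} (hA : 1 ≤ A) (N : ℕ) : N < (rt A N + 1) ^ A := by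
  have hA0 : (A : ℝ) ≠ 0 := by exact_mod_cast (by omega : A ≠ 0)
  have h1 : (N : ℝ) ^ (1 / (A : ℝ)) < (rt A N : ℝ) + 1 := Nat.lt_floor_add_one _
  have h2 : ((N : ℝ) ^ (1 / (A : ℝ))) ^ A < ((rt A N : ℝ) + 1) ^ A :=
    pow_lt_pow_left₀ h1 (by positivity) (by omega)
  rw [← Real.rpow_natCast ((N : ℝ) ^ (1 / (A : ℝ))), ← Real.rpow_mul (Nat.cast_nonneg _), one_div,
    inv_mul_cancel₀ hA0, Real.rpow_one] at h2
  exact_mod_cast h2

lemma rt_tendsto {A : ℕ} (hA : 1 ≤ A) : Tendsto (fun N => rt A N) atTop atTop := by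
  have hA0 : (0 : ℝ) < A := by exact_mod_cast (by omega : 0 < A)
  exact tendsto_nat_floor_atTop.comp ((tendsto_rpow_atTop (by positivity : 0 < 1 / (A : ℝ))).comp
    tendsto_natCast_atTop_atTop)

theorem params (k : ℕ) (hk : 1 ≤ k) (h : Fin k → ℕ) (hinj : Function.Injective h) (ε : ℝ) (hε : 0 < ε) :
    ∃ (w K1 R : ℕ) (B C : ℝ) (N0 : ℕ), 0 < C ∧ ∀ N : ℕ, N0 ≤ N → ∃ y : ℕ, w ≤ y ∧
      (∀ i, ((bad N w y (y ^ K1) R B (h i)).card : ℝ) ≤ ε * N) ∧
      ∀ m : Fin k → ℕ, ((cell N w y (y ^ K1) B h m).card : ℝ) ≤ C * N / √(Real.log (Real.log N)) ^ k := by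
  obtain ⟨CT, hCT, hbad⟩ := bad_le
  obtain ⟨w, hw⟩ : ∃ w : ℕ, w = max (k + 1) (max 3 (univ.sup h)) := ⟨_, rfl⟩
  have hkw : k + 1 ≤ w := by rw [hw]; exact le_max_left _ _
  have hw3 : 3 ≤ w := by rw [hw]; exact (le_max_left 3 _).trans (le_max_right _ _)
  have hadm : Adm w h := ⟨hinj, fun i => by
    rw [hw]
    exact ((Finset.le_sup (mem_univ i)).trans (le_max_right 3 _)).trans (le_max_right _ _)⟩
  obtain ⟨K1, hK1⟩ := exists_nat_ge (max 1 (6 * CT / ε))
  have hK1a : 1 ≤ K1 := by exact_mod_cast (le_max_left 1 (6 * CT / ε)).trans hK1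
  have hK1b : 6 * CT / ε ≤ K1 := (le_max_right _ _).trans hK1
  obtain ⟨R', hR'⟩ := exists_nat_ge (max 1 (12 * P1 w / ε))
  have hR'a : 1 ≤ R' := by exact_mod_cast (le_max_left 1 (12 * P1 w / ε)).trans hR'
  have hR'b : 12 * P1 w / ε ≤ R' := (le_max_right _ _).trans hR'
  obtain ⟨K, y0, hK, hcell⟩ := cell_le k hk
  obtain ⟨C1, y1, hC1, hwy1, hy13, hloc⟩ := local_bound w K1 (by omega) hK1a
  obtain ⟨A, hA⟩ : ∃ A : ℕ, A = 2 * (k * K1 + K + 1) := ⟨_, rfl⟩
  have hA1 : 1 ≤ A := by omega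
  have hAr : (2 : ℝ) ≤ A := by exact_mod_cast (by rw [hA]; omega : 2 ≤ A)
  have ev : ∀ᶠ N : ℕ in atTop, (max y0 (max y1 (k + 4)) ≤ rt A N) ∧ (2 * Real.log (2 * A) + 1 ≤ Real.log (Real.log N)) ∧
      (Real.log (Real.log N) ^ k ≤ N) ∧ (univ.sup h + 3 ≤ N) := by
    have t1 : Tendsto (fun y : ℕ => Real.log (Real.log y)) atTop atTop :=
      Real.tendsto_log_atTop.comp (Real.tendsto_log_atTop.comp tendsto_natCast_atTop_atTop)
    have t2 : ∀ᶠ N : ℕ in atTop, Real.log (Real.log N) ^ k ≤ N := by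
      have e1 : ∀ᶠ x : ℝ in atTop, ‖Real.log x ^ (k : ℝ)‖ ≤ 1 * ‖x ^ (1 : ℝ)‖ :=
        (isLittleO_log_rpow_rpow_atTop (k : ℝ) one_pos).bound one_pos
      have e2 : Tendsto (fun N : ℕ => Real.log N) atTop atTop :=
        Real.tendsto_log_atTop.comp tendsto_natCast_atTop_atTop
      filter_upwards [e2.eventually e1, e2.eventually_ge_atTop 1, t1.eventually_ge_atTop 0, eventually_ge_atTop 1]
        with N h1 h2 h3 h4
      rw [Real.rpow_natCast, Real.rpow_one, one_mul, Real.norm_of_nonneg (by positivity),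
        Real.norm_of_nonneg (by linarith)] at h1
      refine h1.trans ?_
      have h5 : (0 : ℝ) < N := by exact_mod_cast (by omega : 0 < N)
      have := Real.log_le_sub_one_of_pos h5
      linarith
    exact ((rt_tendsto hA1).eventually_ge_atTop _).and ((t1.eventually_ge_atTop _).and
      (t2.and (eventually_ge_atTop _)))
  obtain ⟨N0, hN0⟩ := eventually_atTop.1 ev
  obtain ⟨E, hE⟩ : ∃ E : ℝ, E = Real.exp (2 * k * (k * (6 / ε))) := ⟨_, rfl⟩
  have hE0 : 0 < E := by rw [hE]; exact Real.exp_pos _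
  refine ⟨w, K1, R' + A, 6 / ε, 2 * E * (2 * C1) ^ k + 1, N0, by positivity, ?_⟩
  intro N hN
  obtain ⟨e1, e2, e3, e4⟩ := hN0 N hN
  set y := rt A N with hy
  have hyy0 : y0 ≤ y := (le_max_left _ _).trans e1
  have hyy1 : y1 ≤ y := ((le_max_left _ _).trans (le_max_right _ _)).trans e1
  have hyk : k + 4 ≤ y := ((le_max_right _ _).trans (le_max_right _ _)).trans e1
  have hwy : w ≤ y := hwy1.trans hyy1
  have hNp : 0 < N := by omega
  have hNr : (0 : ℝ) < N := by exact_mod_cast hNp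
  refine ⟨y, hwy, fun i => ?_, fun m => ?_⟩
  · have hi : h i ≤ N := (Finset.le_sup (f := h) (mem_univ i)).trans (by omega)
    refine (hbad N w y K1 R' A (6 / ε) (h i) (by omega) (by omega) hK1a hR'a (by positivity) hi
      (lt_rt hA1 N) (by omega)).trans ?_
    have hK1r : (0 : ℝ) < K1 := by exact_mod_cast hK1a
    have hR'r : (0 : ℝ) < R' := by exact_mod_cast hR'a
    have g1 : 2 * CT / K1 ≤ ε / 3 := by
      rw [div_le_iff₀ hK1r]
      rw [div_le_iff₀ hε] at hK1b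
      linarith
    have g2 : 4 * P1 w / R' ≤ ε / 3 := by
      rw [div_le_iff₀ hR'r]
      rw [div_le_iff₀ hε] at hR'b
      linarith
    have g3 : 2 / (6 / ε) = ε / 3 := by field_simp; ring
    rw [g3]
    have g4 : 2 * CT / K1 * N ≤ ε / 3 * N := by gcongr
    have g5 : 4 * P1 w / R' * N ≤ ε / 3 * N := by gcongr
    linarith
  · obtain ⟨Q, hQ0, hQ1, hQ2⟩ := hloc y hyy1
    have h1 := hcell w h hkw hadm y N (y ^ K1) hyy0 hwy (6 / ε) Q hQ0 hQ1 m
    refine h1.trans ?_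
    rw [← hE]
    set v := Real.log (Real.log N) with hv
    have hl2A : 0 ≤ Real.log (2 * A) := Real.log_nonneg (by linarith)
    have hv0 : 0 < v := by linarith
    have hsv : 0 < √v := Real.sqrt_pos.2 hv0
    have hlogN : Real.log N ≤ 2 * A * Real.log y := by
      have h2 := lt_rt hA1 N
      have h3 : (N : ℝ) ≤ ((y : ℝ) + 1) ^ A := by exact_mod_cast h2.le
      have h4 := Real.log_le_log hNr h3
      rw [Real.log_pow] at h4
      have h5 : Real.log ((y : ℝ) + 1) ≤ 2 * Real.log y := by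
        have h6 : (2 : ℝ) * Real.log y = Real.log ((y : ℝ) ^ 2) := by rw [Real.log_pow]; norm_num
        rw [h6]
        apply Real.log_le_log (by positivity)
        have h7 : (4 : ℝ) ≤ y := by exact_mod_cast (by omega : 4 ≤ y)
        nlinarith
      nlinarith
    have hy4 : (4 : ℝ) ≤ y := by exact_mod_cast (by omega : 4 ≤ y)
    have hly : 0 < Real.log y := Real.log_pos (by linarith)
    have hlN : 0 < Real.log N := by
      have h3 : (3 : ℝ) ≤ N := by exact_mod_cast (by omega : 3 ≤ N)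
      exact Real.log_pos (by linarith)
    have hll : v ≤ Real.log (2 * A) + Real.log (Real.log y) := by
      rw [← Real.log_mul (by positivity) hly.ne']
      exact Real.log_le_log hlN hlogN
    have hvy : v / 4 ≤ Real.log (Real.log y) := by linarith
    have hsq : √v / 2 ≤ √(Real.log (Real.log y)) := by
      apply Real.le_sqrt_of_sq_le
      rw [div_pow, Real.sq_sqrt hv0.le]
      linarith
    have hVQ : VV w y * Q ≤ 2 * C1 / √v := by
      refine hQ2.trans ?_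
      calc C1 / √(Real.log (Real.log y)) ≤ C1 / (√v / 2) := by gcongr
        _ = _ := by field_simp
    have hVQ0 : 0 ≤ VV w y * Q := mul_nonneg (VV_nonneg _ _) hQ0
    have g1 : 2 * (N : ℝ) * (E * (VV w y * Q) ^ k) ≤ 2 * E * (2 * C1) ^ k * N / √v ^ k := by
      calc 2 * (N : ℝ) * (E * (VV w y * Q) ^ k) ≤ 2 * (N : ℝ) * (E * (2 * C1 / √v) ^ k) := by gcongr
        _ = _ := by rw [div_pow]; ring
    have g2 : (((y ^ K1 : ℕ) : ℝ)) ^ k * ((y : ℝ) ^ K + k + 3) ≤ N / √v ^ k := by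
      have y1 : (1 : ℝ) ≤ y := by linarith
      have hk4 : (k : ℝ) + 4 ≤ y := by exact_mod_cast hyk
      have h2 : (y : ℝ) ^ K + k + 3 ≤ y ^ K * y := by
        have h3 : (1 : ℝ) ≤ (y : ℝ) ^ K := one_le_pow₀ y1
        have h4 : (0 : ℝ) ≤ k := Nat.cast_nonneg k
        nlinarith
      have h3 : (((y ^ K1 : ℕ) : ℝ)) ^ k * ((y : ℝ) ^ K + k + 3) ≤ (y : ℝ) ^ (k * K1 + K + 1) := by
        calc (((y ^ K1 : ℕ) : ℝ)) ^ k * ((y : ℝ) ^ K + k + 3) ≤ (((y ^ K1 : ℕ) : ℝ)) ^ k * (y ^ K * y) := by gcongr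
          _ = _ := by push_cast; rw [← pow_mul]; ring
      have h4 : ((y : ℝ) ^ (k * K1 + K + 1)) ^ 2 ≤ N := by
        rw [← pow_mul]
        have h5 := rt_pow hA1 N
        have h6 : (k * K1 + K + 1) * 2 = A := by rw [hA]; ring
        rw [h6]
        exact_mod_cast h5
      have h5 : (y : ℝ) ^ (k * K1 + K + 1) ≤ √N := Real.le_sqrt_of_sq_le h4
      have h6 : √v ^ k ≤ √N := by
        apply Real.le_sqrt_of_sq_le
        rw [← pow_mul, mul_comm, pow_mul, Real.sq_sqrt hv0.le]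
        exact e3
      refine h3.trans (h5.trans ?_)
      rw [le_div_iff₀ (by positivity)]
      calc √(N : ℝ) * √v ^ k ≤ √N * √N := by gcongr
        _ = N := Real.mul_self_sqrt hNr.le
    calc _ ≤ 2 * E * (2 * C1) ^ k * N / √v ^ k + N / √v ^ k := add_le_add g1 g2
      _ = _ := by ring

end Pool.Agent.K4H18.AC
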