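import Pool.Agent.K4H18.AC.A5

/-! Joint law of the values of `Ω`: almost all integers have a value of `Ω` in a window of length `K √(log log N)` -/

set_option autoImplicit false

namespace Pool.Agent.K4H18.AC

open Finset Filter Topology
open ArithmeticFunction (cardFactors cardFactors_mul cardFactors_apply_prime_pow cardFactors_apply)
open Pool.Agent.W208.TL (PP sm lf Indep)
open Pool.Agent.TH445.OI (X Y qq X_add_Y X_eq P1 P2 H VW PW)

/-- the primes up to `w` -/
def FP (w : ℕ) : Finset ℕ := (Icc 1 w).filter Nat.Prime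

/-- the number of the distinct primes `≤ w` which divide `m` -/
noncomputable def om (w m : ℕ) : ℝ := ∑ p ∈ FP w, if p ∣ m then (1 : ℝ) else 0

lemma excess_prime (p : ℕ) (hp : p.Prime) (M : ℕ) :
    ∑ m ∈ Icc 1 M, ((m.factorization p : ℝ) - if p ∣ m then (1 : ℝ) else 0) ≤ 2 * M * (1 / (p : ℝ) ^ 2) := by
  have hp0 : (0 : ℝ) < p := by exact_mod_cast hp.pos
  have h1 := Pool.Agent.TH445.OI.sum_mult p M hp
    (fun m => (m.factorization p : ℝ) - if p ∣ m then (1 : ℝ) else 0) (fun m h => by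
      rw [Nat.factorization_eq_zero_of_not_dvd h, if_neg h]; simp)
  rw [h1]
  have h2 : ∑ m ∈ Icc 1 (M / p), (((p * m).factorization p : ℝ) - if p ∣ p * m then (1 : ℝ) else 0) =
      ∑ m ∈ Icc 1 (M / p), (m.factorization p : ℝ) := by
    apply sum_congr rfl
    intro m hm
    rw [mem_Icc] at hm
    rw [if_pos (dvd_mul_right p m), Nat.factorization_mul hp.ne_zero (by omega), Finsupp.add_apply,
      hp.factorization_self]
    push_cast
    ring
  rw [h2]
  refine (Pool.Agent.TH445.OI.vp_sum p hp (M / p)).trans ?_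
  have h3 : ((M / p : ℕ) : ℝ) ≤ M / p := Nat.cast_div_le
  calc 2 / (p : ℝ) * ((M / p : ℕ) : ℝ) ≤ 2 / (p : ℝ) * (M / p) := by gcongr
    _ = _ := by field_simp

lemma FP_eq_PW (w : ℕ) : FP w = PW 1 w := by
  ext p
  unfold FP
  rw [Pool.Agent.TH445.OI.mem_PW, mem_filter, mem_Icc]
  constructor
  · rintro ⟨⟨a, b⟩, c⟩
    exact ⟨c.one_lt, b, c⟩
  · rintro ⟨a, b, c⟩
    exact ⟨⟨by omega, b⟩, c⟩

lemma excess_sum (w M : ℕ) : ∑ m ∈ Icc 1 M, ((X w m : ℝ) - om w m) ≤ 2 * M := by
  have e : ∀ m ∈ Icc 1 M, ((X w m : ℝ) - om w m) =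
      ∑ p ∈ FP w, ((m.factorization p : ℝ) - if p ∣ m then (1 : ℝ) else 0) := by
    intro m _
    rw [sum_sub_distrib, X_eq]
    push_cast
    rfl
  rw [sum_congr rfl e, sum_comm]
  calc ∑ p ∈ FP w, ∑ m ∈ Icc 1 M, ((m.factorization p : ℝ) - if p ∣ m then (1 : ℝ) else 0)
      ≤ ∑ p ∈ FP w, 2 * M * (1 / (p : ℝ) ^ 2) := sum_le_sum fun p hp => excess_prime p (mem_filter.1 hp).2 M
    _ = 2 * M * ∑ p ∈ PW 1 w, (1 / (p : ℝ) ^ 2) := by rw [mul_sum, FP_eq_PW]
    _ ≤ 2 * M * (1 / ((1 : ℕ) : ℝ)) := by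
        apply mul_le_mul_of_nonneg_left _ (by positivity)
        exact Pool.Agent.TH445.OI.inv_sq_tail 1 w le_rfl
    _ = _ := by simp

lemma excess_nonneg (w : ℕ) {m : ℕ} (hm : m ≠ 0) : 0 ≤ (X w m : ℝ) - om w m := by
  rw [X_eq]
  push_cast
  unfold om FP
  rw [← sum_sub_distrib]
  apply sum_nonneg
  intro p hp
  rw [sub_nonneg]
  split_ifs with h
  · have := ((mem_filter.1 hp).2.factorization_pos_of_dvd hm h)
    exact_mod_cast this
  · positivity

/-- almost all integers have a value of `Ω` close to `log log N` -/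
theorem central (ε : ℝ) (hε : 0 < ε) : ∃ (K : ℝ) (N0 : ℕ), 1 ≤ K ∧ ∀ N : ℕ, N0 ≤ N →
    (((Icc 1 N).filter (fun m => K * √(Real.log (Real.log N)) < |(cardFactors m : ℝ) - Real.log (Real.log N)|)).card : ℝ)
      ≤ ε * N := by
  classical
  obtain ⟨c1, hc1⟩ := Pool.Agent.Helper256.KM.mertens_inv
  have hc10 : 0 ≤ c1 := (abs_nonneg _).trans (hc1 3 le_rfl)
  have hl4 : 0 < Real.log 4 := Real.log_pos (by norm_num)
  obtain ⟨K, hK⟩ : ∃ K : ℝ, K = 104 / ε + 1 := ⟨_, rfl⟩
  have hK1 : 1 ≤ K := by rw [hK]; have : 0 ≤ 104 / ε := by positivity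
                         linarith
  have hKK : 104 / K ^ 2 ≤ ε := by
    have h1 : K ≤ K ^ 2 := by nlinarith
    have h2 : 104 / ε ≤ K ^ 2 := by
      have : 104 / ε ≤ K := by rw [hK]; linarith
      linarith
    rw [div_le_iff₀ (by positivity)]
    rw [div_le_iff₀ hε] at h2
    linarith
  obtain ⟨b, hb⟩ : ∃ b : ℝ, b = 2 * (c1 + Real.log 4 + 1) + c1 + 1 + K := ⟨_, rfl⟩
  have hb0 : 0 < b := by rw [hb]; linarith
  have ev : ∀ᶠ N : ℕ in atTop, (b ^ 2 + b ≤ Real.log (Real.log N)) ∧ 16 ≤ N := by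
    have t1 : Tendsto (fun y : ℕ => Real.log (Real.log y)) atTop atTop :=
      Real.tendsto_log_atTop.comp (Real.tendsto_log_atTop.comp tendsto_natCast_atTop_atTop)
    exact (t1.eventually_ge_atTop _).and (eventually_ge_atTop _)
  obtain ⟨N0, hN0⟩ := eventually_atTop.1 ev
  refine ⟨K, N0, hK1, ?_⟩
  intro N hN
  obtain ⟨e1, e2⟩ := hN0 N hN
  set v := Real.log (Real.log N) with hv
  have hvb : b ≤ v := by nlinarith
  have hv0 : 0 < v := by linarith
  have hbs : b ≤ √v := Real.le_sqrt_of_sq_le (by linarith)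
  have hsv : 0 < √v := by linarith
  have hNr : (0 : ℝ) < N := by exact_mod_cast (by omega : 0 < N)
  set y := Nat.sqrt N with hy
  have hyN : y * y ≤ N := Nat.sqrt_le N
  have hNy : N < (y + 1) * (y + 1) := Nat.lt_succ_sqrt N
  have hy4 : 4 ≤ y := by rw [hy, Nat.le_sqrt]; omega
  have hy4r : (4 : ℝ) ≤ y := by exact_mod_cast hy4
  have hly : 1 ≤ Real.log y := by
    have h1 : Real.log (Real.exp 1) ≤ Real.log 4 := Real.log_le_log (Real.exp_pos _) (by
      have := Real.exp_one_lt_d9; linarith)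
    rw [Real.log_exp] at h1
    exact h1.trans (Real.log_le_log (by norm_num) hy4r)
  have hyN2 : y ≤ N := by nlinarith
  have hlN : Real.log N ≤ 4 * Real.log y := by
    have h2 : (N : ℝ) ≤ (y : ℝ) ^ 4 := by
      have h3 : N ≤ y ^ 4 := by
        have : (y + 1) * (y + 1) ≤ y ^ 4 := by
          have : (y + 1) ≤ y ^ 2 := by nlinarith
          calc (y + 1) * (y + 1) ≤ y ^ 2 * y ^ 2 := Nat.mul_le_mul this this
            _ = _ := by ring
        omega
      exact_mod_cast h3
    have h3 := Real.log_le_log hNr h2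
    rw [Real.log_pow] at h3
    exact_mod_cast h3
  have hlN0 : 0 < Real.log N := Real.log_pos (by exact_mod_cast (by omega : 1 < N))
  have hll : v ≤ Real.log 4 + Real.log (Real.log y) := by
    rw [← Real.log_mul (by norm_num) (by linarith)]
    exact Real.log_le_log hlN0 hlN
  have hll2 : Real.log (Real.log y) ≤ v := by
    apply Real.log_le_log (by linarith)
    exact Real.log_le_log (by linarith) (by exact_mod_cast hyN2)
  have m3 := abs_le.1 (hc1 y (by omega))
  have hP1a : P1 y ≤ v + c1 := by have := m3.2; unfold P1; linarith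
  have hP1b : v - c1 - Real.log 4 ≤ P1 y := by have := m3.1; unfold P1; linarith
  have hP10 : 0 ≤ P1 y := Pool.Agent.TH445.OI.P1_nonneg y
  set T := K * √v / 4 with hT
  have hT0 : 0 < T := by positivity
  set S1 := (Icc 1 N).filter (fun m => T < (X y m : ℝ) - om y m) with hS1
  set S2 := (Icc 1 N).filter (fun m => T ^ 2 < (om y m - P1 y) ^ 2) with hS2
  have hsub : (Icc 1 N).filter (fun m => K * √v < |(cardFactors m : ℝ) - v|) ⊆ S1 ∪ S2 := by
    intro m hm
    rw [mem_filter, mem_Icc] at hm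
    obtain ⟨hm1, hm2⟩ := hm
    by_contra hcon
    rw [mem_union, not_or, hS1, hS2, mem_filter, mem_filter, mem_Icc] at hcon
    have g1 : (X y m : ℝ) - om y m ≤ T := by
      by_contra h; exact hcon.1 ⟨hm1, by linarith⟩
    have g2 : (om y m - P1 y) ^ 2 ≤ T ^ 2 := by
      by_contra h; exact hcon.2 ⟨hm1, by linarith⟩
    have g3 := abs_le_of_sq_le_sq' g2 hT0.le
    have g4 : Y y m ≤ 1 := by
      apply Y_le (by omega)
      rw [pow_two]
      omega
    have g5 : (Y y m : ℝ) ≤ 1 := by exact_mod_cast g4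
    have g6 : (0 : ℝ) ≤ Y y m := Nat.cast_nonneg _
    have g7 : (cardFactors m : ℝ) = X y m + Y y m := by rw [← X_add_Y y (by omega : m ≠ 0)]; push_cast; ring
    have g8 := excess_nonneg y (by omega : m ≠ 0)
    have g9 : c1 + Real.log 4 + 1 ≤ K * √v / 2 := by
      have : b ≤ K * √v := by nlinarith
      have : 2 * (c1 + Real.log 4 + 1) ≤ b := by rw [hb]; linarith
      linarith
    have g10 : |(cardFactors m : ℝ) - v| ≤ K * √v := by
      rw [abs_le, g7]
      have g11 := g3.1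
      have g12 := g3.2
      rw [hT] at g11 g12 g1
      constructor <;> linarith
    linarith
  have h1 : (S1.card : ℝ) ≤ 2 * N / T := by
    have h2 : ∑ n ∈ Icc 1 N, (if n = 0 then 0 else (X y n : ℝ) - om y n) ≤ 2 * N := by
      refine le_trans (le_of_eq ?_) (excess_sum y N)
      apply sum_congr rfl
      intro n hn
      rw [mem_Icc] at hn
      rw [if_neg (by omega)]
    have h3 := markov N (fun n => if n = 0 then 0 else (X y n : ℝ) - om y n) (fun n => by
      show (0 : ℝ) ≤ if n = 0 then 0 else (X y n : ℝ) - om y n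
      split_ifs with h
      · exact le_rfl
      · exact excess_nonneg y h) _ T hT0 h2
    refine le_trans ?_ h3
    rw [hS1]
    apply Nat.cast_le.2
    apply card_le_card
    intro m hm
    rw [mem_filter] at hm ⊢
    refine ⟨hm.1, ?_⟩
    have := (mem_Icc.1 hm.1).1
    rw [if_neg (by omega)]
    exact hm.2
  have h2 : (S2.card : ℝ) ≤ 3 * N * (2 * v) / T ^ 2 := by
    have h3 := Pool.Agent.Helper480.E25.turan (FP y) (fun p hp => (mem_filter.1 hp).2) N
    have hcard : ((FP y).card : ℝ) ≤ N := by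
      have : (FP y).card ≤ y := by
        unfold FP
        refine (card_filter_le _ _).trans ?_
        simp
      exact_mod_cast this.trans hyN2
    have h4 : ∑ n ∈ Icc 1 N, (om y n - P1 y) ^ 2 ≤ 3 * N * (2 * v) := by
      have h5 : N * (∑ p ∈ FP y, (1 : ℝ) / p) + 2 * (∑ p ∈ FP y, (1 : ℝ) / p) * (FP y).card ≤ 3 * N * (2 * v) := by
        have h6 : ∑ p ∈ FP y, (1 : ℝ) / p = P1 y := rfl
        rw [h6]
        have h7 : P1 y ≤ 2 * v := by
          have : c1 ≤ b := by rw [hb]; linarith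
          linarith
        nlinarith [mul_le_mul_of_nonneg_left hcard hP10, mul_le_mul_of_nonneg_left h7 hNr.le]
      exact h3.trans h5
    exact markov N (fun n => (om y n - P1 y) ^ 2) (fun n => sq_nonneg _) _ _ (by positivity) h4
  have h3 : (((Icc 1 N).filter (fun m => K * √v < |(cardFactors m : ℝ) - v|)).card : ℝ) ≤ S1.card + S2.card := by
    exact_mod_cast (card_le_card hsub).trans (card_union_le _ _)
  have h4 : 2 * (N : ℝ) / T ≤ 8 / K ^ 2 * N := by
    have hKs : K ≤ √v := by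
      have : K ≤ b := by rw [hb]; linarith
      linarith
    have : 2 * (N : ℝ) / T = 8 / (K * √v) * N := by rw [hT]; field_simp; ring
    rw [this]
    have h5 : K ^ 2 ≤ K * √v := by nlinarith
    gcongr
  have h5 : 3 * (N : ℝ) * (2 * v) / T ^ 2 = 96 / K ^ 2 * N := by
    rw [hT, div_pow, mul_pow, Real.sq_sqrt hv0.le]
    field_simp
    ring
  calc _ ≤ (S1.card : ℝ) + S2.card := h3
    _ ≤ 8 / K ^ 2 * N + 96 / K ^ 2 * N := by linarith
    _ = 104 / K ^ 2 * N := by ring
    _ ≤ ε * N := by gcongr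

end Pool.Agent.K4H18.AC
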