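import Pool.Agent.K4H18.AC.A6

/-! Joint law of the values of `Ω`: the typical values and the comparison with the product law -/

set_option autoImplicit false

namespace Pool.Agent.K4H18.AC

open Finset Filter Topology
open ArithmeticFunction (cardFactors cardFactors_mul cardFactors_apply_prime_pow cardFactors_apply)
open Pool.Agent.W208.TL (PP sm lf Indep)
open Pool.Agent.TH445.OI (X Y qq X_add_Y X_eq P1 P2 H VW PW)

/-- the number of the `m ≤ N` with `Ω(m) = l` -/
def cnt (N l : ℕ) : ℕ := ((Icc 1 N).filter (fun m => cardFactors m = l)).card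

/-- the typical values of `Ω` -/
theorem typical (ε : ℝ) (hε : 0 < ε) : ∃ (η : ℝ) (N0 : ℕ), 0 < η ∧ ∀ N : ℕ, N0 ≤ N → ∃ G : Finset ℕ,
    (∀ l ∈ G, η * N / √(Real.log (Real.log N)) ≤ cnt N l) ∧
    (((Icc 1 N).filter (fun m => cardFactors m ∉ G)).card : ℝ) ≤ ε * N := by
  classical
  obtain ⟨K, N1, hK1, hcen⟩ := central (ε / 2) (by positivity)
  have hK0 : 0 < K := by linarith
  have ev : ∀ᶠ N : ℕ in atTop, (1 ≤ Real.log (Real.log N)) ∧ N1 ≤ N := by
    have t1 : Tendsto (fun y : ℕ => Real.log (Real.log y)) atTop atTop :=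
      Real.tendsto_log_atTop.comp (Real.tendsto_log_atTop.comp tendsto_natCast_atTop_atTop)
    exact (t1.eventually_ge_atTop _).and (eventually_ge_atTop _)
  obtain ⟨N0, hN0⟩ := eventually_atTop.1 ev
  refine ⟨ε / (6 * K), N0, by positivity, ?_⟩
  intro N hN
  obtain ⟨e1, e2⟩ := hN0 N hN
  have hc := hcen N e2
  set v := Real.log (Real.log N) with hv
  have hv0 : 0 < v := by linarith
  have hs1 : 1 ≤ √v := Real.one_le_sqrt.2 e1
  have hs0 : 0 < √v := by linarith
  -- the window
  set L : Finset ℕ := Icc ⌈v - K * √v⌉₊ ⌊v + K * √v⌋₊ with hL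
  have hLc : (L.card : ℝ) ≤ 3 * K * √v := by
    have h1 : 0 ≤ v + K * √v := by positivity
    rw [hL, Nat.card_Icc]
    by_cases h : ⌈v - K * √v⌉₊ ≤ ⌊v + K * √v⌋₊ + 1
    · rw [Nat.cast_sub h]
      push_cast
      have h2 := Nat.floor_le h1
      have h3 := Nat.le_ceil (v - K * √v)
      nlinarith
    · rw [Nat.sub_eq_zero_of_le (by omega)]
      simp only [Nat.cast_zero]
      positivity
  have hmem : ∀ m : ℕ, m ∉ L → K * √v < |(m : ℝ) - v| := by
    intro m hm
    by_contra hcon
    push Not at hcon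
    rw [abs_le] at hcon
    apply hm
    rw [hL, mem_Icc]
    constructor
    · apply Nat.ceil_le.2
      linarith
    · apply Nat.le_floor
      linarith
  refine ⟨L.filter (fun l => ε / (6 * K) * N / √v ≤ cnt N l), fun l hl => (mem_filter.1 hl).2, ?_⟩
  set D := L.filter (fun l => ¬ ε / (6 * K) * N / √v ≤ cnt N l) with hD
  have hsub : (Icc 1 N).filter (fun m => cardFactors m ∉ L.filter (fun l => ε / (6 * K) * N / √v ≤ cnt N l)) ⊆
      (Icc 1 N).filter (fun m => K * √v < |(cardFactors m : ℝ) - v|) ∪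
      D.biUnion (fun l => (Icc 1 N).filter (fun m => cardFactors m = l)) := by
    intro m hm
    rw [mem_filter] at hm
    obtain ⟨hm1, hm2⟩ := hm
    rw [mem_union, mem_filter, mem_biUnion]
    by_cases h : cardFactors m ∈ L
    · right
      refine ⟨cardFactors m, ?_, ?_⟩
      · rw [hD, mem_filter]
        refine ⟨h, fun hcon => hm2 ?_⟩
        rw [mem_filter]
        exact ⟨h, hcon⟩
      · rw [mem_filter]
        exact ⟨hm1, rfl⟩
    · left
      exact ⟨hm1, hmem _ h⟩
  have h2 : ((D.biUnion (fun l => (Icc 1 N).filter (fun m => cardFactors m = l))).card : ℝ) ≤ ε / 2 * N := by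
    have h3 : ((D.biUnion (fun l => (Icc 1 N).filter (fun m => cardFactors m = l))).card : ℝ) ≤ ∑ l ∈ D, (cnt N l : ℝ) := by
      exact_mod_cast card_biUnion_le
    have h4 : ∑ l ∈ D, (cnt N l : ℝ) ≤ ∑ l ∈ D, ε / (6 * K) * N / √v := by
      apply sum_le_sum
      intro l hl
      rw [hD, mem_filter] at hl
      exact (not_le.1 hl.2).le
    rw [sum_const, nsmul_eq_mul] at h4
    have h5 : (D.card : ℝ) ≤ 3 * K * √v := by
      refine le_trans ?_ hLc
      exact_mod_cast card_filter_le _ _
    have h6 : (D.card : ℝ) * (ε / (6 * K) * N / √v) ≤ 3 * K * √v * (ε / (6 * K) * N / √v) := by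
      apply mul_le_mul_of_nonneg_right h5
      positivity
    have h7 : 3 * K * √v * (ε / (6 * K) * N / √v) = ε / 2 * N := by
      field_simp
      ring
    linarith
  have h3 : (((Icc 1 N).filter (fun m => cardFactors m ∉ L.filter (fun l => ε / (6 * K) * N / √v ≤ cnt N l))).card : ℝ) ≤
      (((Icc 1 N).filter (fun m => K * √v < |(cardFactors m : ℝ) - v|)).card : ℝ) +
      ((D.biUnion (fun l => (Icc 1 N).filter (fun m => cardFactors m = l))).card : ℝ) := by
    exact_mod_cast (card_le_card hsub).trans (card_union_le _ _)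
  linarith

/-- the number of the `n ≤ N` for which the tuple of the values of `Ω` at the `n + h i` lies in `S` -/
noncomputable def cons {k : ℕ} (h : Fin k → ℕ) (S : Set (Fin k → ℕ)) (N : ℕ) : ℕ :=
  open Classical in ((Icc 1 N).filter (fun n => (fun i => cardFactors (n + h i)) ∈ S)).card

/-- the number of the `m ∈ [N] ^ k` for which the tuple of the values of `Ω` at the `m i` lies in `S` -/
noncomputable def indep {k : ℕ} (S : Set (Fin k → ℕ)) (N : ℕ) : ℕ :=
  open Classical in ((Fintype.piFinset (fun _ : Fin k => Icc 1 N)).filter (fun m => (fun i => cardFactors (m i)) ∈ S)).card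

/-- the upper bound for one value -/
lemma point_le {k : ℕ} {N w y Z R : ℕ} {B : ℝ} {h : Fin k → ℕ} (hwy : w ≤ y) {M : ℝ}
    (hM : ∀ m : Fin k → ℕ, ((cell N w y Z B h m).card : ℝ) ≤ M) (l : Fin k → ℕ) (T : Finset ℕ)
    (hT : ∀ n ∈ T, n ∈ Icc 1 N ∧ (∀ i, n ∉ bad N w y Z R B (h i)) ∧ ∀ i, cardFactors (n + h i) = l i) :
    (T.card : ℝ) ≤ ((R : ℝ) + 1) ^ k * M := by
  classical
  have hsub : T ⊆ (Fintype.piFinset (fun _ : Fin k => range (R + 1))).biUnion
      (fun r => cell N w y Z B h (fun i => l i - r i)) := by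
    intro n hn
    obtain ⟨h1, h2, h3⟩ := hT n hn
    have h4 : ∀ i, sm w y (n + h i) ≤ Z ∧ psi w y (n + h i) ≤ B ∧ X w (n + h i) + Y y (n + h i) ≤ R := by
      intro i
      by_contra hcon
      apply h2 i
      unfold bad
      rw [mem_filter]
      exact ⟨h1, hcon⟩
    rw [mem_biUnion]
    refine ⟨fun i => X w (n + h i) + Y y (n + h i), ?_, ?_⟩
    · rw [Fintype.mem_piFinset]
      intro i
      rw [mem_range]
      have := (h4 i).2.2
      omega
    · unfold cell
      rw [mem_filter]
      refine ⟨h1, fun i => ⟨?_, (h4 i).1, (h4 i).2.1⟩⟩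
      rw [mem_Icc] at h1
      have h5 := om_split hwy (by omega : n + h i ≠ 0)
      rw [h3 i] at h5
      show _ = l i - (X w (n + h i) + Y y (n + h i))
      omega
  have h1 : (T.card : ℝ) ≤ ∑ r ∈ Fintype.piFinset (fun _ : Fin k => range (R + 1)),
      ((cell N w y Z B h (fun i => l i - r i)).card : ℝ) := by
    exact_mod_cast (card_le_card hsub).trans card_biUnion_le
  refine h1.trans ?_
  calc ∑ r ∈ Fintype.piFinset (fun _ : Fin k => range (R + 1)), ((cell N w y Z B h (fun i => l i - r i)).card : ℝ)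
      ≤ ∑ r ∈ Fintype.piFinset (fun _ : Fin k => range (R + 1)), M := sum_le_sum fun r _ => hM _
    _ = _ := by
      rw [sum_const, Fintype.card_piFinset, prod_const, card_univ, Fintype.card_fin, card_range, nsmul_eq_mul]
      push_cast
      ring

/-- the tuples with values in `S ∩ G ^ k` -/
lemma indep_ge {k : ℕ} (S : Set (Fin k → ℕ)) (N : ℕ) (W : Finset (Fin k → ℕ)) (hW : ∀ l ∈ W, l ∈ S) :
    ∑ l ∈ W, ∏ i, cnt N (l i) ≤ indep S N := by
  classical
  unfold indep
  have h1 : ∀ l : Fin k → ℕ, ∏ i, cnt N (l i) =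
      (Fintype.piFinset (fun i : Fin k => (Icc 1 N).filter (fun m => cardFactors m = l i))).card := by
    intro l
    rw [Fintype.card_piFinset]
    rfl
  simp_rw [h1]
  rw [← card_biUnion]
  · apply card_le_card
    intro m hm
    rw [mem_biUnion] at hm
    obtain ⟨l, hl, hm⟩ := hm
    rw [Fintype.mem_piFinset] at hm
    rw [mem_filter, Fintype.mem_piFinset]
    refine ⟨fun i => (mem_filter.1 (hm i)).1, ?_⟩
    have : (fun i => cardFactors (m i)) = l := funext fun i => (mem_filter.1 (hm i)).2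
    rw [this]
    exact hW l hl
  · intro l _ l' _ hne
    rw [Function.onFun, disjoint_left]
    intro m hm hm'
    rw [Fintype.mem_piFinset] at hm hm'
    apply hne
    funext i
    rw [← (mem_filter.1 (hm i)).2, (mem_filter.1 (hm' i)).2]

/-- **the law of the values of `Ω` at shifted integers is uniformly absolutely continuous with respect to the
product law** -/
theorem main (k : ℕ) (h : Fin k → ℕ) (hinj : Function.Injective h) (ε : ℝ) (hε : 0 < ε) :
    ∃ (C : ℝ) (N0 : ℕ), 0 < C ∧ ∀ N : ℕ, N0 ≤ N → ∀ S : Set (Fin k → ℕ),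
      (cons h S N : ℝ) / N ≤ C * ((indep S N : ℝ) / (N : ℝ) ^ k) + ε := by
  classical
  rcases Nat.eq_zero_or_pos k with hk0 | hk
  · subst hk0
    refine ⟨1, 1, one_pos, ?_⟩
    intro N hN S
    have hNr : (0 : ℝ) < N := by exact_mod_cast hN
    by_cases hS : (Fin.elim0 : Fin 0 → ℕ) ∈ S
    · have h1 : indep S N = 1 := by
        unfold indep
        rw [filter_true_of_mem]
        · simp
        · intro m _
          have : (fun i => cardFactors (m i)) = (Fin.elim0 : Fin 0 → ℕ) := Subsingleton.elim _ _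
          rw [this]; exact hS
      have h2 : cons h S N ≤ N := by
        unfold cons
        refine (card_filter_le _ _).trans ?_
        simp
      have h3 : (cons h S N : ℝ) / N ≤ 1 := by
        rw [div_le_one hNr]
        exact_mod_cast h2
      rw [h1]
      simp only [Nat.cast_one, pow_zero, div_one, mul_one]
      linarith
    · have h2 : cons h S N = 0 := by
        unfold cons
        rw [card_eq_zero, filter_eq_empty_iff]
        intro n _ hn
        apply hS
        have : (fun i => cardFactors (n + h i)) = (Fin.elim0 : Fin 0 → ℕ) := Subsingleton.elim _ _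
        rw [this] at hn
        exact hn
      rw [h2]
      simp only [Nat.cast_zero, zero_div]
      positivity
  obtain ⟨w, K1, R, B, C1, N1, hC1, hpar⟩ := params k hk h hinj (ε / (4 * k)) (by positivity)
  obtain ⟨η, N2, hη, htyp⟩ := typical (ε / (8 * k)) (by positivity)
  obtain ⟨N3, hN3⟩ := exists_nat_ge ((univ.sup h : ℕ) * (8 * k) / ε)
  have ev : ∀ᶠ N : ℕ in atTop, (1 ≤ Real.log (Real.log N)) := by
    have t1 : Tendsto (fun y : ℕ => Real.log (Real.log y)) atTop atTop :=
      Real.tendsto_log_atTop.comp (Real.tendsto_log_atTop.comp tendsto_natCast_atTop_atTop)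
    exact t1.eventually_ge_atTop _
  obtain ⟨N4, hN4⟩ := eventually_atTop.1 ev
  refine ⟨((R : ℝ) + 1) ^ k * C1 / η ^ k, max (max N1 N2) (max (max N3 N4) (univ.sup h + 1)), by positivity, ?_⟩
  intro N hN S
  have g1 : N1 ≤ N := ((le_max_left _ _).trans (le_max_left _ _)).trans hN
  have g2 : N2 ≤ N := ((le_max_right _ _).trans (le_max_left _ _)).trans hN
  have g3 : N3 ≤ N := (((le_max_left _ _).trans (le_max_left _ _)).trans (le_max_right _ _)).trans hN
  have g4 : N4 ≤ N := (((le_max_right _ _).trans (le_max_left _ _)).trans (le_max_right _ _)).trans hN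
  have g5 : univ.sup h + 1 ≤ N := ((le_max_right _ _).trans (le_max_right _ _)).trans hN
  have hNr : (0 : ℝ) < N := by exact_mod_cast (by omega : 0 < N)
  have hv1 := hN4 N g4
  set v := Real.log (Real.log N) with hv
  have hv0 : 0 < v := by linarith
  have hsv : 0 < √v := Real.sqrt_pos.2 hv0
  obtain ⟨y, hwy, hbad, hcell⟩ := hpar N g1
  obtain ⟨G, hG1, hG2⟩ := htyp N g2
  have hkr : (0 : ℝ) < k := by exact_mod_cast hk
  -- the part of `S` with typical coordinates
  set W : Finset (Fin k → ℕ) := (Fintype.piFinset (fun _ : Fin k => G)).filter (fun l => l ∈ S) with hW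
  set U := (Icc 1 N).filter (fun n => (fun i => cardFactors (n + h i)) ∈ S) with hU
  have hcons : cons h S N = U.card := rfl
  set E1 : Fin k → Finset ℕ := fun i => bad N w y (y ^ K1) R B (h i) with hE1
  set E2 : Fin k → Finset ℕ := fun i => (Icc 1 N).filter (fun n => cardFactors (n + h i) ∉ G) with hE2
  set T : (Fin k → ℕ) → Finset ℕ := fun l => (Icc 1 N).filter (fun n => (∀ i, n ∉ E1 i) ∧
    ∀ i, cardFactors (n + h i) = l i) with hT
  have hsub : U ⊆ (univ.biUnion E1 ∪ univ.biUnion E2) ∪ W.biUnion T := by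
    intro n hn
    rw [hU, mem_filter] at hn
    by_contra hcon
    rw [mem_union, mem_union, not_or, not_or] at hcon
    obtain ⟨⟨c1, c2⟩, c3⟩ := hcon
    have d1 : ∀ i, n ∉ E1 i := fun i hi => c1 (mem_biUnion.2 ⟨i, mem_univ _, hi⟩)
    have d2 : ∀ i, cardFactors (n + h i) ∈ G := by
      intro i
      by_contra h0
      exact c2 (mem_biUnion.2 ⟨i, mem_univ _, mem_filter.2 ⟨hn.1, h0⟩⟩)
    apply c3
    rw [mem_biUnion]
    refine ⟨fun i => cardFactors (n + h i), ?_, ?_⟩
    · rw [hW, mem_filter, Fintype.mem_piFinset]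
      exact ⟨d2, hn.2⟩
    · rw [hT]
      show n ∈ (Icc 1 N).filter _
      rw [mem_filter]
      exact ⟨hn.1, d1, fun i => rfl⟩
  have b1 : ((univ.biUnion E1).card : ℝ) ≤ ε / 4 * N := by
    have h1 : ((univ.biUnion E1).card : ℝ) ≤ ∑ i, ((E1 i).card : ℝ) := by exact_mod_cast card_biUnion_le
    have h2 : ∑ i : Fin k, ((E1 i).card : ℝ) ≤ ∑ i : Fin k, ε / (4 * k) * N := sum_le_sum fun i _ => hbad i
    rw [sum_const, card_univ, Fintype.card_fin, nsmul_eq_mul] at h2
    have h3 : (k : ℝ) * (ε / (4 * k) * N) = ε / 4 * N := by field_simp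
    linarith
  have b2 : ((univ.biUnion E2).card : ℝ) ≤ ε / 4 * N := by
    have h1 : ((univ.biUnion E2).card : ℝ) ≤ ∑ i, ((E2 i).card : ℝ) := by exact_mod_cast card_biUnion_le
    have h2 : ∀ i : Fin k, ((E2 i).card : ℝ) ≤ ε / (4 * k) * N := by
      intro i
      have h3 : (E2 i).card ≤ ((Icc 1 N).filter (fun n => cardFactors n ∉ G)).card + h i := by
        have h4 := card_shift N (h i) (fun n => cardFactors n ∉ G)
        refine h4.trans ?_
        have h5 : (Icc 1 (N + h i)).filter (fun n => cardFactors n ∉ G) ⊆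
            (Icc 1 N).filter (fun n => cardFactors n ∉ G) ∪ Ioc N (N + h i) := by
          intro n hn
          rw [mem_filter, mem_Icc] at hn
          rw [mem_union, mem_filter, mem_Icc, mem_Ioc]
          by_cases hle : n ≤ N
          · left; exact ⟨⟨hn.1.1, hle⟩, hn.2⟩
          · right; omega
        refine (card_le_card h5).trans ((card_union_le _ _).trans ?_)
        rw [Nat.card_Ioc]
        omega
      have h6 : ((h i : ℕ) : ℝ) ≤ ε / (8 * k) * N := by
        have h7 : ((h i : ℕ) : ℝ) ≤ (univ.sup h : ℕ) := by exact_mod_cast Finset.le_sup (f := h) (mem_univ i)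
        have h8 : ((univ.sup h : ℕ) : ℝ) * (8 * k) / ε ≤ N := hN3.trans (by exact_mod_cast g3)
        rw [div_le_iff₀ hε] at h8
        rw [div_mul_eq_mul_div, le_div_iff₀ (by positivity)]
        nlinarith
      have h9 : ((E2 i).card : ℝ) ≤ (((Icc 1 N).filter (fun n => cardFactors n ∉ G)).card : ℝ) + h i := by
        exact_mod_cast h3
      have h10 : ε / (4 * k) * (N : ℝ) = ε / (8 * k) * N + ε / (8 * k) * N := by field_simp; ring
      linarith
    have h3 : ∑ i : Fin k, ((E2 i).card : ℝ) ≤ ∑ i : Fin k, ε / (4 * k) * N := sum_le_sum fun i _ => h2 i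
    rw [sum_const, card_univ, Fintype.card_fin, nsmul_eq_mul] at h3
    have h4 : (k : ℝ) * (ε / (4 * k) * N) = ε / 4 * N := by field_simp
    linarith
  have b3 : ∀ l ∈ W, ((T l).card : ℝ) ≤ ((R : ℝ) + 1) ^ k * C1 / η ^ k * N / (N : ℝ) ^ k * ∏ i, (cnt N (l i) : ℝ) := by
    intro l hl
    rw [hW, mem_filter, Fintype.mem_piFinset] at hl
    have h1 := point_le (R := R) hwy hcell l (T l) (fun n hn => by
      rw [hT] at hn
      change n ∈ (Icc 1 N).filter _ at hn
      rw [mem_filter] at hn
      exact ⟨hn.1, hn.2.1, hn.2.2⟩)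
    have h2 : (η * N / √v) ^ k ≤ ∏ i, (cnt N (l i) : ℝ) := by
      calc (η * N / √v) ^ k = ∏ i : Fin k, (η * N / √v) := by
            rw [prod_const, card_univ, Fintype.card_fin]
        _ ≤ _ := prod_le_prod (fun i _ => by positivity) (fun i _ => hG1 _ (hl.1 i))
    calc ((T l).card : ℝ) ≤ ((R : ℝ) + 1) ^ k * (C1 * N / √v ^ k) := h1
      _ = ((R : ℝ) + 1) ^ k * C1 / η ^ k * N / (N : ℝ) ^ k * (η * N / √v) ^ k := by
        rw [div_pow, mul_pow]
        field_simp
      _ ≤ _ := by
        apply mul_le_mul_of_nonneg_left h2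
        positivity
  have b4 : ((W.biUnion T).card : ℝ) ≤ ((R : ℝ) + 1) ^ k * C1 / η ^ k * N / (N : ℝ) ^ k * indep S N := by
    have h1 : ((W.biUnion T).card : ℝ) ≤ ∑ l ∈ W, ((T l).card : ℝ) := by exact_mod_cast card_biUnion_le
    have h2 : ∑ l ∈ W, ((T l).card : ℝ) ≤
        ((R : ℝ) + 1) ^ k * C1 / η ^ k * N / (N : ℝ) ^ k * ∑ l ∈ W, ∏ i, (cnt N (l i) : ℝ) := by
      rw [mul_sum]
      exact sum_le_sum b3
    have h3 : ∑ l ∈ W, ∏ i, (cnt N (l i) : ℝ) ≤ indep S N := by
      exact_mod_cast indep_ge S N W (fun l hl => (mem_filter.1 hl).2)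
    refine h1.trans (h2.trans ?_)
    apply mul_le_mul_of_nonneg_left h3
    positivity
  have b5 : (U.card : ℝ) ≤ (univ.biUnion E1).card + (univ.biUnion E2).card + (W.biUnion T).card := by
    have h1 := card_le_card hsub
    have h2 := card_union_le (univ.biUnion E1 ∪ univ.biUnion E2) (W.biUnion T)
    have h3 := card_union_le (univ.biUnion E1) (univ.biUnion E2)
    exact_mod_cast (by omega : U.card ≤ (univ.biUnion E1).card + (univ.biUnion E2).card + (W.biUnion T).card)
  rw [hcons, div_le_iff₀ hNr]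
  have h6 : (((R : ℝ) + 1) ^ k * C1 / η ^ k * ((indep S N : ℝ) / (N : ℝ) ^ k) + ε) * N =
      ((R : ℝ) + 1) ^ k * C1 / η ^ k * N / (N : ℝ) ^ k * indep S N + ε * N := by ring
  rw [h6]
  nlinarith

end Pool.Agent.K4H18.AC
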