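import Pool.Agent.K4H18.AC.A7

/-! Joint law of the values of `Ω`: the sum of Q1 and functional relations -/

set_option autoImplicit false

namespace Pool.Agent.K4H18.AC

open Finset Filter Topology
open ArithmeticFunction (cardFactors)

/-- the tuple `ℓ + 1` -/
def up {k : ℕ} (l : Fin k → ℕ) : Fin k → ℕ := fun i => l i + 1

lemma up_inj {k : ℕ} : Function.Injective (up (k := k)) := by
  intro a b h
  funext i
  have := congrFun h i
  unfold up at this
  omega

/-- the number of the `n ≤ N` with the tuple `l` of values of `Ω` -/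
def cc {k : ℕ} (h : Fin k → ℕ) (N : ℕ) (l : Fin k → ℕ) : ℕ :=
  ((Icc 1 N).filter (fun n => ∀ i, cardFactors (n + h i) = l i)).card

lemma cons_image {k : ℕ} (h : Fin k → ℕ) (N : ℕ) (W : Finset (Fin k → ℕ)) :
    cons h (up '' (W : Set (Fin k → ℕ))) N = ∑ l ∈ W, cc h N (up l) := by
  classical
  unfold cons cc
  rw [← card_biUnion]
  · congr 1
    ext n
    rw [mem_filter, mem_biUnion]
    constructor
    · rintro ⟨h1, l, hl, h2⟩
      refine ⟨l, hl, ?_⟩
      rw [mem_filter]
      exact ⟨h1, fun i => (congrFun h2 i).symm⟩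
    · rintro ⟨l, hl, h2⟩
      rw [mem_filter] at h2
      exact ⟨h2.1, l, hl, (funext fun i => h2.2 i).symm⟩
  · intro l _ l' _ hne
    rw [Function.onFun, disjoint_left]
    intro n hn hn'
    rw [mem_filter] at hn hn'
    apply hne
    apply up_inj
    funext i
    rw [← hn.2 i, hn'.2 i]

lemma indep_image {k : ℕ} (N : ℕ) (W : Finset (Fin k → ℕ)) :
    indep (up '' (W : Set (Fin k → ℕ))) N = ∑ l ∈ W, ∏ i, cnt N (up l i) := by
  classical
  unfold indep
  have h1 : ∀ l : Fin k → ℕ, ∏ i, cnt N (up l i) =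
      (Fintype.piFinset (fun i : Fin k => (Icc 1 N).filter (fun m => cardFactors m = up l i))).card := by
    intro l
    rw [Fintype.card_piFinset]
    rfl
  simp_rw [h1]
  rw [← card_biUnion]
  · congr 1
    ext m
    rw [mem_filter, mem_biUnion, Fintype.mem_piFinset]
    constructor
    · rintro ⟨h1, l, hl, h2⟩
      refine ⟨l, hl, ?_⟩
      rw [Fintype.mem_piFinset]
      intro i
      rw [mem_filter]
      exact ⟨h1 i, (congrFun h2 i).symm⟩
    · rintro ⟨l, hl, h2⟩
      rw [Fintype.mem_piFinset] at h2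
      exact ⟨fun i => (mem_filter.1 (h2 i)).1, l, hl, (funext fun i => (mem_filter.1 (h2 i)).2).symm⟩
  · intro l _ l' _ hne
    rw [Function.onFun, disjoint_left]
    intro m hm hm'
    rw [Fintype.mem_piFinset] at hm hm'
    apply hne
    apply up_inj
    funext i
    rw [← (mem_filter.1 (hm i)).2, (mem_filter.1 (hm' i)).2]

lemma om_lt (n : ℕ) (hn : n ≠ 0) : cardFactors n < n := by
  have h1 : 2 ^ cardFactors n ≤ n := by
    have := pow_om_le (y := 1) hn (fun p hp _ => hp.one_lt)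
    simpa using this
  exact (Nat.lt_two_pow_self).trans_le h1

/-- the sum of Q1 for the shifts `h i` -/
noncomputable def q1sum {k : ℕ} (h : Fin k → ℕ) (N : ℕ) : ℝ :=
  ∑' l : Fin k → ℕ, |(1 / (N : ℝ)) * (((Icc 1 N).filter (fun n => ∀ i, cardFactors (n + h i) = l i + 1)).card : ℝ) -
    ∏ i : Fin k, ((1 / (N : ℝ)) * (((Icc 1 N).filter (fun n => cardFactors n = l i + 1)).card : ℝ))|

/-- the box which contains all the values -/
def box (k M : ℕ) : Finset (Fin k → ℕ) := Fintype.piFinset (fun _ => range M)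

lemma q1sum_eq {k : ℕ} (hk : 1 ≤ k) (h : Fin k → ℕ) (N : ℕ) : q1sum h N = ∑ l ∈ box k (N + univ.sup h + 1),
    |(1 / (N : ℝ)) * (cc h N (up l) : ℝ) - ∏ i : Fin k, ((1 / (N : ℝ)) * (cnt N (up l i) : ℝ))| := by
  classical
  unfold q1sum
  rw [tsum_eq_sum (s := box k (N + univ.sup h + 1))]
  · rfl
  · intro l hl
    unfold box at hl
    rw [Fintype.mem_piFinset] at hl
    push Not at hl
    obtain ⟨i, hi⟩ := hl
    rw [mem_range, not_lt] at hi
    have h1 : (Icc 1 N).filter (fun n => ∀ i, cardFactors (n + h i) = l i + 1) = ∅ := by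
      rw [filter_eq_empty_iff]
      intro n hn hcon
      rw [mem_Icc] at hn
      have h2 := om_lt (n + h i) (by omega)
      rw [hcon i] at h2
      have h3 := Finset.le_sup (f := h) (mem_univ i)
      omega
    have h2 : (Icc 1 N).filter (fun n => cardFactors n = l i + 1) = ∅ := by
      rw [filter_eq_empty_iff]
      intro n hn hcon
      rw [mem_Icc] at hn
      have h2 := om_lt n (by omega)
      rw [hcon] at h2
      omega
    have h3 : ∏ i : Fin k, ((1 / (N : ℝ)) * (((Icc 1 N).filter (fun n => cardFactors n = l i + 1)).card : ℝ)) = 0 :=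
      prod_eq_zero (mem_univ i) (by rw [h2]; simp)
    rw [h1, h3]
    simp

lemma mass_le {k : ℕ} (h : Fin k → ℕ) (N : ℕ) (W : Finset (Fin k → ℕ)) : ∑ l ∈ W, cc h N (up l) ≤ N := by
  classical
  rw [← cons_image]
  unfold cons
  refine (card_filter_le _ _).trans ?_
  simp

lemma mass_le' {k : ℕ} (N : ℕ) (W : Finset (Fin k → ℕ)) : ∑ l ∈ W, ∏ i, cnt N (up l i) ≤ N ^ k := by
  classical
  rw [← indep_image]
  unfold indep
  refine (card_filter_le _ _).trans ?_
  rw [Fintype.card_piFinset, prod_const, Nat.card_Icc, card_univ, Fintype.card_fin]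
  simp

lemma mass_ge {k : ℕ} (h : Fin k → ℕ) (N : ℕ) : N ≤ ∑ l ∈ box k (N + univ.sup h + 1), cc h N (up l) + 1 := by
  classical
  rw [← cons_image]
  unfold cons
  have h1 : (Icc 2 N) ⊆ (Icc 1 N).filter (fun n => (fun i => cardFactors (n + h i)) ∈
      up '' ((box k (N + univ.sup h + 1) : Finset (Fin k → ℕ)) : Set (Fin k → ℕ))) := by
    intro n hn
    rw [mem_Icc] at hn
    rw [mem_filter, mem_Icc]
    refine ⟨by omega, fun i => cardFactors (n + h i) - 1, ?_, ?_⟩
    · unfold box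
      rw [mem_coe, Fintype.mem_piFinset]
      intro i
      rw [mem_range]
      have h2 := om_lt (n + h i) (by omega)
      have h3 := Finset.le_sup (f := h) (mem_univ i)
      omega
    · funext i
      show cardFactors (n + h i) - 1 + 1 = cardFactors (n + h i)
      have h2 : cardFactors (n + h i) ≠ 0 := by
        rw [ne_eq, ArithmeticFunction.cardFactors_eq_zero_iff_eq_zero_or_one]
        omega
      omega
  have h2 := card_le_card h1
  rw [Nat.card_Icc] at h2
  omega

/-- **the sum of Q1 stays below `2`** -/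
theorem q1_lt (k : ℕ) (hk : 1 ≤ k) (h : Fin k → ℕ) (hinj : Function.Injective h) :
    ∃ (c : ℝ) (N0 : ℕ), 0 < c ∧ ∀ N : ℕ, N0 ≤ N → q1sum h N ≤ 2 - c := by
  classical
  obtain ⟨C0, N1, hC0, hmain⟩ := main k h hinj (1 / 4) (by norm_num)
  obtain ⟨C, hC⟩ : ∃ C : ℝ, C = max C0 1 := ⟨_, rfl⟩
  have hC1 : 1 ≤ C := by rw [hC]; exact le_max_right _ _
  refine ⟨1 / (2 * C), max N1 4, by positivity, ?_⟩
  intro N hN
  have hN1 : N1 ≤ N := (le_max_left _ _).trans hN
  have hN4 : 4 ≤ N := (le_max_right _ _).trans hN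
  have hN4r : (4 : ℝ) ≤ N := by exact_mod_cast hN4
  have hNr : (0 : ℝ) < N := by linarith
  rw [q1sum_eq hk]
  set F := box k (N + univ.sup h + 1) with hF
  set p : (Fin k → ℕ) → ℝ := fun l => (1 / (N : ℝ)) * (cc h N (up l) : ℝ) with hp
  set q : (Fin k → ℕ) → ℝ := fun l => ∏ i : Fin k, ((1 / (N : ℝ)) * (cnt N (up l i) : ℝ)) with hq
  have hqe : ∀ W : Finset (Fin k → ℕ), ∑ l ∈ W, q l = ((∑ l ∈ W, ∏ i, cnt N (up l i) : ℕ) : ℝ) / (N : ℝ) ^ k := by
    intro W
    push_cast
    rw [sum_div]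
    apply sum_congr rfl
    intro l _
    rw [hq]
    show ∏ i : Fin k, ((1 / (N : ℝ)) * (cnt N (up l i) : ℝ)) = _
    rw [prod_mul_distrib, prod_const, card_univ, Fintype.card_fin, one_div, inv_pow, mul_comm, div_eq_mul_inv]
  have hpe : ∀ W : Finset (Fin k → ℕ), ∑ l ∈ W, p l = ((∑ l ∈ W, cc h N (up l) : ℕ) : ℝ) / N := by
    intro W
    rw [hp]
    show ∑ l ∈ W, (1 / (N : ℝ)) * (cc h N (up l) : ℝ) = _
    rw [← mul_sum]
    push_cast
    ring
  set W1 := F.filter (fun l => q l < p l) with hW1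
  set W2 := F.filter (fun l => ¬ q l < p l) with hW2
  have hs1 : ∑ l ∈ W1, |p l - q l| = ∑ l ∈ W1, p l - ∑ l ∈ W1, q l := by
    rw [← sum_sub_distrib]
    apply sum_congr rfl
    intro l hl
    rw [abs_of_pos]
    have := (mem_filter.1 hl).2
    linarith
  have hs2 : ∑ l ∈ W2, |p l - q l| = ∑ l ∈ W2, q l - ∑ l ∈ W2, p l := by
    rw [← sum_sub_distrib]
    apply sum_congr rfl
    intro l hl
    have := (mem_filter.1 hl).2
    rw [abs_of_nonpos (by linarith)]
    ring
  have hs : ∑ l ∈ F, |p l - q l| = ∑ l ∈ W1, |p l - q l| + ∑ l ∈ W2, |p l - q l| :=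
    (sum_filter_add_sum_filter_not F _ _).symm
  have hpF : ∑ l ∈ F, p l = ∑ l ∈ W1, p l + ∑ l ∈ W2, p l := (sum_filter_add_sum_filter_not F _ _).symm
  have hqF : ∑ l ∈ F, q l = ∑ l ∈ W1, q l + ∑ l ∈ W2, q l := (sum_filter_add_sum_filter_not F _ _).symm
  have hp1 : ∑ l ∈ F, p l ≤ 1 := by
    rw [hpe, div_le_one hNr]
    exact_mod_cast mass_le h N F
  have hq1 : ∑ l ∈ F, q l ≤ 1 := by
    rw [hqe, div_le_one (by positivity)]
    exact_mod_cast mass_le' N F
  have hp2 : 1 / 2 ≤ ∑ l ∈ F, p l := by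
    rw [hpe, le_div_iff₀ hNr]
    have h1 : (N : ℝ) ≤ ((∑ l ∈ F, cc h N (up l) : ℕ) : ℝ) + 1 := by exact_mod_cast mass_ge h N
    linarith
  have hm : ∑ l ∈ W1, p l ≤ C * ∑ l ∈ W1, q l + 1 / 4 := by
    have h1 := hmain N hN1 (up '' (W1 : Set (Fin k → ℕ)))
    rw [cons_image, indep_image] at h1
    rw [hpe, hqe]
    refine h1.trans ?_
    have h2 : C0 ≤ C := by rw [hC]; exact le_max_left _ _
    gcongr
  have hW1q : 0 ≤ ∑ l ∈ W1, q l := sum_nonneg fun l _ => prod_nonneg fun i _ => by positivity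
  have hW2p : 0 ≤ ∑ l ∈ W2, p l := sum_nonneg fun l _ => by rw [hp]; positivity
  rw [hs, hs1, hs2]
  set P1 := ∑ l ∈ W1, p l
  set Q1 := ∑ l ∈ W1, q l
  set P2 := ∑ l ∈ W2, p l
  set Q2 := ∑ l ∈ W2, q l
  have key : 1 / (4 * C) ≤ P2 + Q1 := by
    rw [div_le_iff₀ (by positivity)]
    nlinarith
  have e : 1 / (2 * C) = 2 * (1 / (4 * C)) := by field_simp; norm_num
  rw [e]
  linarith

/-- the densities of the level sets of `Ω` tend to `0` -/
lemma cnt_small (ε : ℝ) (hε : 0 < ε) : ∃ N0 : ℕ, ∀ N : ℕ, N0 ≤ N → ∀ l, (cnt N l : ℝ) ≤ ε * N := by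
  classical
  obtain ⟨w, K1, R, B, C, N1, hC, hpar⟩ := params 1 le_rfl (fun _ => 0) (fun _ _ _ => Subsingleton.elim _ _) (ε / 2)
    (by positivity)
  have ev : ∀ᶠ N : ℕ in atTop, (((R : ℝ) + 1) * C * (2 / ε) + 1 ≤ √(Real.log (Real.log N))) := by
    have t1 : Tendsto (fun y : ℕ => √(Real.log (Real.log y))) atTop atTop :=
      Real.tendsto_sqrt_atTop.comp
        (Real.tendsto_log_atTop.comp (Real.tendsto_log_atTop.comp tendsto_natCast_atTop_atTop))
    exact t1.eventually_ge_atTop _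
  obtain ⟨N2, hN2⟩ := eventually_atTop.1 ev
  refine ⟨max N1 N2, ?_⟩
  intro N hN l
  obtain ⟨y, hwy, hbad, hcell⟩ := hpar N ((le_max_left _ _).trans hN)
  have hs := hN2 N ((le_max_right _ _).trans hN)
  set s := √(Real.log (Real.log N)) with hsdef
  have hs0 : 0 < s := by
    have : 0 ≤ ((R : ℝ) + 1) * C * (2 / ε) := by positivity
    linarith
  set T := (Icc 1 N).filter (fun n => n ∉ bad N w y (y ^ K1) R B 0 ∧ cardFactors n = l) with hT
  have h1 := point_le (R := R) hwy hcell (fun _ => l) T (fun n hn => by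
    rw [hT, mem_filter] at hn
    exact ⟨hn.1, fun _ => hn.2.1, fun _ => hn.2.2⟩)
  rw [pow_one, pow_one] at h1
  have h2 : cnt N l ≤ T.card + (bad N w y (y ^ K1) R B 0).card := by
    unfold cnt
    refine (card_le_card ?_).trans (card_union_le _ _)
    intro n hn
    rw [mem_filter] at hn
    rw [mem_union, hT, mem_filter]
    by_cases h : n ∈ bad N w y (y ^ K1) R B 0
    · right; exact h
    · left; exact ⟨hn.1, h, hn.2⟩
  have h3 : (cnt N l : ℝ) ≤ T.card + (bad N w y (y ^ K1) R B 0).card := by exact_mod_cast h2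
  have h4 := hbad 0
  have h5 : ((R : ℝ) + 1) * (C * N / s) ≤ ε / 2 * N := by
    have h6 : ((R : ℝ) + 1) * C / s ≤ ε / 2 := by
      rw [div_le_iff₀ hs0]
      have h7 : ((R : ℝ) + 1) * C * (2 / ε) ≤ s := by linarith
      have h8 : ((R : ℝ) + 1) * C * (2 / ε) * (ε / 2) ≤ s * (ε / 2) := by gcongr
      have h9 : ((R : ℝ) + 1) * C * (2 / ε) * (ε / 2) = ((R : ℝ) + 1) * C := by field_simp
      linarith
    calc ((R : ℝ) + 1) * (C * N / s) = ((R : ℝ) + 1) * C / s * N := by ring
      _ ≤ ε / 2 * N := by gcongr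
  have h0 : (bad N w y (y ^ K1) R B 0).card = (bad N w y (y ^ K1) R B ((fun _ : Fin 1 => 0) 0)).card := rfl
  rw [h0] at h3
  linarith

/-- **no value is a function of the others** -/
theorem no_function (k : ℕ) (h : Fin (k + 1) → ℕ) (hinj : Function.Injective h) (i0 : Fin (k + 1)) (ε : ℝ) (hε : 0 < ε) :
    ∃ N0 : ℕ, ∀ N : ℕ, N0 ≤ N → ∀ φ : (Fin k → ℕ) → ℕ,
      (((Icc 1 N).filter (fun n => cardFactors (n + h i0) =
        φ (fun j => cardFactors (n + h (i0.succAbove j))))).card : ℝ) ≤ ε * N := by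
  classical
  obtain ⟨C, N1, hC, hmain⟩ := main (k + 1) h hinj (ε / 2) (by positivity)
  obtain ⟨N2, hN2⟩ := cnt_small (ε / (2 * C)) (by positivity)
  refine ⟨max (max N1 N2) 1, ?_⟩
  intro N hN φ
  have hN1 : N1 ≤ N := ((le_max_left _ _).trans (le_max_left _ _)).trans hN
  have hN2' : N2 ≤ N := ((le_max_right _ _).trans (le_max_left _ _)).trans hN
  have hN3 : 1 ≤ N := (le_max_right _ _).trans hN
  have hNr : (0 : ℝ) < N := by exact_mod_cast hN3
  set S : Set (Fin (k + 1) → ℕ) := {l | l i0 = φ (fun j => l (i0.succAbove j))} with hS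
  have h1 := hmain N hN1 S
  have h2 : cons h S N = ((Icc 1 N).filter (fun n => cardFactors (n + h i0) =
        φ (fun j => cardFactors (n + h (i0.succAbove j))))).card := by
    unfold cons
    apply congrArg
    ext n
    constructor
    · intro hn
      simp only [mem_filter] at hn ⊢
      exact hn
    · intro hn
      simp only [mem_filter] at hn ⊢
      exact hn
  have h3 : (indep S N : ℝ) ≤ (N : ℝ) ^ k * (ε / (2 * C) * N) := by
    have h4 : indep S N ≤ ∑ m' ∈ Fintype.piFinset (fun _ : Fin k => Icc 1 N), cnt N (φ (fun j => cardFactors (m' j))) := by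
      unfold indep cnt
      refine le_trans (card_le_card (t := (Fintype.piFinset (fun _ : Fin k => Icc 1 N)).biUnion (fun m' =>
            (((Icc 1 N).filter (fun m => cardFactors m = φ (fun j => cardFactors (m' j)))).image
              (fun m0 => i0.insertNth (α := fun _ => ℕ) m0 m')))) ?_) ?_
      · intro m hm
        simp only [mem_filter, Fintype.mem_piFinset] at hm
        obtain ⟨hm1, hm2⟩ := hm
        rw [mem_biUnion]
        refine ⟨fun j => m (i0.succAbove j), ?_, ?_⟩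
        · rw [Fintype.mem_piFinset]
          exact fun j => hm1 _
        · rw [mem_image]
          refine ⟨m i0, ?_, ?_⟩
          · rw [mem_filter]
            exact ⟨hm1 i0, hm2⟩
          · exact Fin.insertNth_self_removeNth i0 m
      · refine card_biUnion_le.trans ?_
        apply sum_le_sum
        intro m' _
        exact card_image_le
    have h6 : (indep S N : ℝ) ≤ ∑ m' ∈ Fintype.piFinset (fun _ : Fin k => Icc 1 N), (ε / (2 * C) * N) := by
      have : (indep S N : ℝ) ≤ ∑ m' ∈ Fintype.piFinset (fun _ : Fin k => Icc 1 N),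
          (cnt N (φ (fun j => cardFactors (m' j))) : ℝ) := by exact_mod_cast h4
      exact this.trans (sum_le_sum fun m' _ => hN2 N hN2' _)
    rw [sum_const, Fintype.card_piFinset, prod_const, Nat.card_Icc, card_univ, Fintype.card_fin, nsmul_eq_mul] at h6
    push_cast at h6
    simpa using h6
  rw [h2] at h1
  have h7 : C * ((indep S N : ℝ) / (N : ℝ) ^ (k + 1)) ≤ ε / 2 := by
    have h8 : (indep S N : ℝ) / (N : ℝ) ^ (k + 1) ≤ ε / (2 * C) := by
      rw [div_le_iff₀ (by positivity), pow_succ]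
      linarith
    calc C * ((indep S N : ℝ) / (N : ℝ) ^ (k + 1)) ≤ C * (ε / (2 * C)) := by gcongr
      _ = ε / 2 := by field_simp
  rw [div_le_iff₀ hNr] at h1
  nlinarith

end Pool.Agent.K4H18.AC
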